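import Pool.Agent.Helper5.EA.RestC
import Pool.Agent.Helper51.EA.OneD
import Pool.Agent.Helper84.EA.Low
import Pool.Agent.Helper84.EA.Vb
import Pool.Agent.Helper85.EA.E10
import Pool.Agent.Helper88.EA.E8
import Pool.Agent.Helper96.EA.D3
import Pool.Agent.Helper96.EA.E23
import Pool.Agent.Helper11.EA.Step

/-!
# Project EA: the lower bound, assembled from the blocks
-/

set_option autoImplicit false

namespace Pool.Agent.Helper51.EA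

open Finset Pool.Agent.Helper5.RM Pool.Agent.Helper5.RS MeasureTheory ProbabilityTheory

/-- E11 -/
theorem one_N (δ : ℝ) (hδ : 0 < δ) : ∃ (c : ℝ) (N0 : ℕ), 0 < c ∧ ∀ N : ℕ, N0 ≤ N →
    pr (PP N) (fun T => ∀ j < 4 * N, ‖SN N T ((j : ℝ) / (4 * N : ℕ))‖ < (1 - δ) * tg N) ≤ (N : ℝ) ^ (-c) :=
  one_N_of step (fun N y J hJ T _ _ hp hp' h1 h2 hne => XG_orth N y J hJ T hp hp' h1 h2 hne)
    (fun N J hJ A T _ hp => XG_norm N J hJ A T hp) pb_inv smooth_le vb_le vb_ge rest_small cond_ok δ hδ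

/-- E12 -/
theorem low_block (δ : ℝ) (hδ : 0 < δ) : ∃ (c : ℝ) (a0 : ℕ), 0 < c ∧ ∀ a : ℕ, a0 ≤ a →
    pr (PP (2 ^ (a + 1))) (fun T => ∃ N : ℕ, 2 ^ a ≤ N ∧ N ≤ 2 ^ (a + 1) ∧ ∀ x : ℝ, ‖SN N T x‖ < (1 - δ) * tg N) ≤
      ((2 : ℝ) ^ a) ^ (-c) :=
  low_block_of one_N δ hδ

/-- E13 -/
theorem lower_as {Ω : Type*} [MeasurableSpace Ω] (μ : Measure Ω) [IsProbabilityMeasure μ]
    (ε : Nat.Primes → Ω → ℝ) (hm : ∀ p, Measurable (ε p)) (hi : iIndepFun ε μ)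
    (h2 : ∀ p, μ {ω | ε p ω = -1} = 1 / 2) (h1 : ∀ p, μ {ω | ε p ω = 1} = 1 / 2) (δ : ℝ) (hδ : 0 < δ) :
    ∀ᵐ ω ∂μ, ∃ N0 : ℕ, ∀ N : ℕ, N0 ≤ N → ∃ x : ℝ,
      (1 - δ) * tg N ≤ ‖∑ n ∈ Finset.Icc 1 N, (rs (ext ε) ω n : ℂ) * e (n * x)‖ :=
  lower_as_of low_block μ ε hm hi h2 h1 δ hδ

end Pool.Agent.Helper51.EA
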