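import Pool.Agent.Helper51.EA.Defs
import Pool.Agent.Helper5.RM.Defs

/-!
# Project EA: basic facts about `LI N B z 1`, `MG`, `XG`, sums over dyadic blocks
-/

set_option autoImplicit false

namespace Pool.Agent.Helper51.EA

open Finset Pool.Agent.Helper5.RM Pool.Agent.Helper5.RS

/-- the elements of `LI N B z 1` are the primes in `[B, N]` -/
lemma mem_LI1 {N B z p : ℕ} (hB : 2 ≤ B) (hz : z < B) : p ∈ LI N B z 1 ↔ p.Prime ∧ B ≤ p ∧ p ≤ N := by
  unfold LI LA
  rw [mem_filter, mem_filter, mem_Icc]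
  constructor
  · rintro ⟨⟨⟨h1, h2⟩, h3, h4, h5⟩, h6, h7⟩
    refine ⟨?_, h4, h2⟩
    unfold om at h7
    obtain ⟨q, hq⟩ := Finset.card_eq_one.1 h7
    have h8 := Nat.prod_primeFactors_of_squarefree h3
    rw [hq, prod_singleton] at h8
    have h9 : q ∈ p.primeFactors := by rw [hq]; exact mem_singleton_self q
    rw [← h8]
    exact Nat.prime_of_mem_primeFactors h9
  · rintro ⟨h1, h2, h3⟩
    have h4 : p.minFac = p := h1.minFac_eq
    refine ⟨⟨⟨h1.one_lt.le, h3⟩, h1.prime.squarefree, h2, ?_⟩, ?_, ?_⟩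
    · rw [h4, Nat.div_self h1.pos]
      omega
    · rw [h4]
      omega
    · unfold om
      rw [h1.primeFactors, card_singleton]

lemma LI1_eq {N B z : ℕ} (hB : 2 ≤ B) (hz : z < B) : LI N B z 1 = (PP N).filter (fun p => B ≤ p) := by
  ext p
  rw [mem_LI1 hB hz, mem_filter, mem_PP]
  tauto

lemma MG_all {N p : ℕ} (hp : p.Prime) : MG N (Icc 1 N) p = MS N p := by
  unfold MG MS
  refine filter_congr fun m hm => ?_
  rw [mem_Icc] at hm
  rw [hp.minFac_eq]
  constructor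
  · rintro ⟨-, h⟩
    exact h
  · intro h
    refine ⟨?_, h⟩
    rw [mem_Icc]
    exact ⟨hm.1, hm.2.trans (Nat.div_le_self _ _)⟩

/-- for a prime `p` the sum `XX` is `XG` with the full set -/
lemma XX_eq_XG {N p : ℕ} (hp : p.Prime) (θ : ℝ) (T : Finset ℕ) : XX N θ p T = XG N (Icc 1 N) θ p T := by
  unfold XX XG
  rw [MG_all hp]

lemma XG_pred (N : ℕ) (A : Finset ℕ) (θ : ℝ) (p : ℕ) : Pred p (XG N A θ p) := by
  intro T
  unfold XG
  refine sum_congr rfl fun m hm => ?_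
  unfold MG at hm
  rw [mem_filter] at hm
  have h1 : rf T m = rf (T.filter (· < p)) m := by
    rw [rf_sqf hm.2.2.1, rf_sqf hm.2.2.1, wal_filter hm.2.2.2]
  rw [h1]

/-- the number of pairs `(p, m)` is at most the number of products -/
lemma sum_MG_le {N : ℕ} {P Q : Finset ℕ} (A : ℕ → Finset ℕ) (hP : ∀ p ∈ P, p.Prime)
    (h : ∀ p ∈ P, ∀ m ∈ MG N (A p) p, p * m ∈ Q) : ∑ p ∈ P, (MG N (A p) p).card ≤ Q.card := by
  classical
  rw [← Finset.card_sigma]
  refine Finset.card_le_card_of_injOn (fun s => s.1 * s.2) ?_ ?_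
  · intro s hs
    have hs' := Finset.mem_sigma.1 (Finset.mem_coe.1 hs)
    exact h s.1 hs'.1 s.2 hs'.2
  · rintro ⟨p, m⟩ h1 ⟨p', m'⟩ h2 he
    have h1' := Finset.mem_sigma.1 (Finset.mem_coe.1 h1)
    have h2' := Finset.mem_sigma.1 (Finset.mem_coe.1 h2)
    have he' : p * m = p' * m' := he
    have hm : m ≠ 0 ∧ ∀ q ∈ m.primeFactors, q < p := by
      have h3 : m ∈ MG N (A p) p := h1'.2
      unfold MG at h3
      rw [mem_filter, mem_Icc] at h3
      exact ⟨by omega, h3.2.2.2⟩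
    have hm' : m' ≠ 0 ∧ ∀ q ∈ m'.primeFactors, q < p' := by
      have h3 : m' ∈ MG N (A p') p' := h2'.2
      unfold MG at h3
      rw [mem_filter, mem_Icc] at h3
      exact ⟨by omega, h3.2.2.2⟩
    have hp : p.Prime := hP p h1'.1
    have hp' : p'.Prime := hP p' h2'.1
    have hpp : p = p' := by
      rcases lt_trichotomy p p' with hlt | heq | hgt
      · exfalso
        have h4 : p' ∣ p * m := he' ▸ dvd_mul_right p' m'
        rcases (Nat.Prime.dvd_mul hp').1 h4 with h5 | h5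
        · exact absurd (Nat.le_of_dvd hp.pos h5) (not_le.2 hlt)
        · have := hm.2 p' (Nat.mem_primeFactors.2 ⟨hp', h5, hm.1⟩)
          omega
      · exact heq
      · exfalso
        have h4 : p ∣ p' * m' := he' ▸ dvd_mul_right p m
        rcases (Nat.Prime.dvd_mul hp).1 h4 with h5 | h5
        · exact absurd (Nat.le_of_dvd hp'.pos h5) (not_le.2 hgt)
        · have := hm'.2 p (Nat.mem_primeFactors.2 ⟨hp, h5, hm'.1⟩)
          omega
    subst hpp
    have : m = m' := Nat.eq_of_mul_eq_mul_left hp.pos he'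
    rw [this]

/-- sums over the dyadic blocks `[B 2^i, B 2^(i+1))`, `i < n` -/
lemma sum_dyadic {M : Type*} [AddCommMonoid M] (B n : ℕ) (s : Finset ℕ) (f : ℕ → M) :
    ∑ p ∈ s.filter (fun p => B ≤ p ∧ p < B * 2 ^ n), f p =
      ∑ i ∈ range n, ∑ p ∈ s.filter (fun p => B * 2 ^ i ≤ p ∧ p < B * 2 ^ (i + 1)), f p := by
  classical
  induction n with
  | zero =>
    rw [sum_range_zero, filter_false_of_mem, sum_empty]
    intro p _
    omega
  | succ n ih =>
    rw [sum_range_succ, ← ih, ← sum_union]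
    · refine sum_congr ?_ fun _ _ => rfl
      ext p
      rw [mem_union, mem_filter, mem_filter, mem_filter]
      have h1 : B ≤ B * 2 ^ n := Nat.le_mul_of_pos_right _ (by positivity)
      have h2 : B * 2 ^ n ≤ B * 2 ^ (n + 1) := Nat.mul_le_mul_left _ (Nat.pow_le_pow_right (by norm_num) (by omega))
      constructor
      · rintro ⟨ha, hb, hc⟩
        rcases Nat.lt_or_ge p (B * 2 ^ n) with h | h
        · exact Or.inl ⟨ha, hb, h⟩
        · exact Or.inr ⟨ha, h, hc⟩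
      · rintro (⟨ha, hb, hc⟩ | ⟨ha, hb, hc⟩)
        · exact ⟨ha, hb, by omega⟩
        · exact ⟨ha, by omega, hc⟩
    · rw [disjoint_left]
      intro p h1 h2
      rw [mem_filter] at h1 h2
      omega

/-- the first dyadic block with `B H > N` -/
lemma exists_H0 {N B : ℕ} (hB : 2 ≤ B) (hBN : B * B ≤ N) : ∃ n : ℕ, 1 ≤ n ∧ N < B * (B * 2 ^ n) ∧
    B * (B * 2 ^ n) ≤ 2 * N ∧ (∀ i < n, B * (B * 2 ^ i) ≤ N) ∧ 2 ^ n ≤ N := by
  classical
  have hex : ∃ n : ℕ, N < B * (B * 2 ^ n) := by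
    refine ⟨N, ?_⟩
    have h1 : N < 2 ^ N := Nat.lt_two_pow_self
    have h2 : 2 ^ N ≤ B * 2 ^ N := Nat.le_mul_of_pos_left _ (by omega)
    have h3 : B * 2 ^ N ≤ B * (B * 2 ^ N) := Nat.le_mul_of_pos_left _ (by omega)
    omega
  obtain ⟨n, hn⟩ : ∃ n, n = Nat.find hex := ⟨_, rfl⟩
  have h1 := Nat.find_spec hex
  rw [← hn] at h1
  have hmin : ∀ i < n, B * (B * 2 ^ i) ≤ N := by
    intro i hi
    rw [hn] at hi
    exact not_lt.1 (Nat.find_min hex hi)
  have hn1 : 1 ≤ n := by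
    by_contra hcon
    have h0 : n = 0 := by omega
    rw [h0, pow_zero, mul_one] at h1
    omega
  have h2 := hmin (n - 1) (by omega)
  have h3 : 2 ^ n = 2 * 2 ^ (n - 1) := by
    rw [← pow_succ']
    congr 1
    omega
  refine ⟨n, hn1, h1, ?_, hmin, ?_⟩
  · calc B * (B * 2 ^ n) = 2 * (B * (B * 2 ^ (n - 1))) := by rw [h3]; ring
      _ ≤ 2 * N := Nat.mul_le_mul_left _ h2
  · calc 2 ^ n = 2 * 2 ^ (n - 1) := h3
      _ ≤ B * (B * 2 ^ (n - 1)) := by
          calc 2 * 2 ^ (n - 1) ≤ B * 2 ^ (n - 1) := Nat.mul_le_mul_right _ hB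
            _ ≤ B * (B * 2 ^ (n - 1)) := Nat.le_mul_of_pos_left _ (by omega)
      _ ≤ N := h2

/-- the probability bound of one piece is covered by the last term of `Par.hfin` -/
lemma par_piece {N : ℕ} {D : ℝ} {B z k w I : ℕ} {η : ℝ} (hP : Par N D B z k w I η) (hL8 : LL N ^ 8 ≤ B)
    (hL3 : 3 ≤ LL N) (hI : 3 ≤ I) :
    (1000 * (N : ℝ) ^ 2 * LL N ^ (2 * w + 5) * (128 * LL N / B) ^ (η / 4) / ((N : ℝ) / LL N ^ 2) ^ 2) ^ k ≤
      1 / (6 * (B : ℝ) * LL N * D ^ 4) := by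
  have hN0 : (0 : ℝ) < N := by
    have := hP.hD4
    have := hP.hDN
    linarith
  have hD0 : (0 : ℝ) < D := by
    have := hP.hD4
    linarith
  have hB0 : (0 : ℝ) < B := by
    have := hP.hB36
    exact_mod_cast (by omega : 0 < B)
  have hL0 : 0 < LL N := by linarith
  have hk := hP.hk
  have hη := hP.hη0
  have hlD : 1 ≤ Real.log D := by
    rw [Real.le_log_iff_exp_le hD0]
    have := hP.hD4
    exact (Real.exp_one_lt_d9.le.trans (by norm_num)).trans this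
  obtain ⟨L, hL⟩ : ∃ L : ℝ, L = LL N := ⟨_, rfl⟩
  rw [← hL] at hL8 hL3 hL0 ⊢
  have hfin := hP.hfin
  rw [← hL] at hfin
  have hsq : L ^ 4 ≤ Real.sqrt B := by
    apply Real.le_sqrt_of_sq_le
    calc (L ^ 4) ^ 2 = L ^ 8 := by ring
      _ ≤ (B : ℝ) := hL8
  have hs0 : 0 < Real.sqrt B := Real.sqrt_pos.2 hB0
  have hss : Real.sqrt B * Real.sqrt B = B := Real.mul_self_sqrt hB0.le
  have h1 : 128 * L / B ≤ 6 / Real.sqrt B := by
    rw [div_le_div_iff₀ hB0 hs0]
    have h2 : 128 * L ≤ 6 * Real.sqrt B := by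
      have h3 : 27 * L ≤ L ^ 4 := by
        have : 27 ≤ L ^ 3 := by
          calc (27 : ℝ) = 3 ^ 3 := by norm_num
            _ ≤ L ^ 3 := by gcongr
        calc 27 * L ≤ L ^ 3 * L := by gcongr
          _ = L ^ 4 := by ring
      linarith
    calc 128 * L * Real.sqrt B ≤ 6 * Real.sqrt B * Real.sqrt B := by gcongr
      _ = 6 * (Real.sqrt B * Real.sqrt B) := by ring
      _ = 6 * B := by rw [hss]
  have h2 : (128 * L / B) ^ (η / 4) ≤ (6 / Real.sqrt B) ^ (η / 4) :=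
    Real.rpow_le_rpow (by positivity) h1 (by linarith)
  have h3 : (1000 : ℝ) ≤ 72 * (10 * Real.log D) ^ (2 * I) := by
    have e1 : (1 : ℝ) ≤ 10 * Real.log D := by linarith
    have e2 : (10 : ℝ) ^ 2 ≤ (10 * Real.log D) ^ (2 * I) := by
      calc (10 : ℝ) ^ 2 ≤ (10 * Real.log D) ^ 2 := pow_le_pow_left₀ (by norm_num) (by linarith) 2
        _ ≤ (10 * Real.log D) ^ (2 * I) := pow_le_pow_right₀ e1 (by omega)
    linarith
  have hval : 1000 * (N : ℝ) ^ 2 * L ^ (2 * w + 5) * (128 * L / B) ^ (η / 4) / ((N : ℝ) / L ^ 2) ^ 2 =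
      1000 * L ^ (2 * w + 9) * (128 * L / B) ^ (η / 4) := by
    field_simp
    ring
  rw [hval]
  have h4 : 1000 * L ^ (2 * w + 9) * (128 * L / B) ^ (η / 4) ≤
      72 * L ^ (2 * w + 9) * (6 / Real.sqrt B) ^ (η / 4) * (10 * Real.log D) ^ (2 * I) := by
    have e1 : (0 : ℝ) ≤ (6 / Real.sqrt B) ^ (η / 4) := by positivity
    calc 1000 * L ^ (2 * w + 9) * (128 * L / B) ^ (η / 4)
        ≤ (72 * (10 * Real.log D) ^ (2 * I)) * L ^ (2 * w + 9) * (6 / Real.sqrt B) ^ (η / 4) := by gcongr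
      _ = _ := by ring
  have h5 : (1000 * L ^ (2 * w + 9) * (128 * L / B) ^ (η / 4)) ^ k ≤
      (72 * L ^ (2 * w + 9) * (6 / Real.sqrt B) ^ (η / 4) * (10 * Real.log D) ^ (2 * I)) ^ k :=
    pow_le_pow_left₀ (by positivity) h4 k
  refine h5.trans ?_
  rw [le_div_iff₀ (by positivity)]
  obtain ⟨X, hX⟩ : ∃ X : ℝ, X = (72 * L ^ (2 * w + 9) * (6 / Real.sqrt B) ^ (η / 4) * (10 * Real.log D) ^ (2 * I)) ^ k := ⟨_, rfl⟩
  have hX0 : 0 ≤ X := by
    rw [hX]
    have : (0 : ℝ) ≤ 10 * Real.log D := by linarith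
    positivity
  have h6 : (I : ℝ) * (2 * B * L * X) ≤ 1 / D ^ 4 := by
    refine le_trans ?_ hfin
    rw [hX]
    have e1 : 0 ≤ (E0 N z (2 * k - 1) / N) ^ k := by
      have : 0 ≤ E0 N z (2 * k - 1) := by
        unfold E0
        rw [← hL]
        positivity
      positivity
    have e2 : (0 : ℝ) ≤ 2 * (I : ℝ) ^ 2 / D ^ 5 := by positivity
    have e3 : 0 ≤ 2 * L * (18 * L ^ (2 * w + 5) * (128 * L / B) ^ (η / 4)) ^ k := by positivity
    linarith
  rw [← hX]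
  have hI3 : (3 : ℝ) ≤ I := by exact_mod_cast hI
  rw [le_div_iff₀ (by positivity)] at h6
  calc X * (6 * B * L * D ^ 4) = 3 * (2 * B * L * X) * D ^ 4 := by ring
    _ ≤ I * (2 * B * L * X) * D ^ 4 := by gcongr
    _ ≤ 1 := h6

end Pool.Agent.Helper51.EA
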