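import Pool.Agent.Helper5.EA.Up
import Pool.Agent.Helper5.EA.Lo

/-!
# Project EA, part 1: almost surely `max_x |F_N(x)| / √(N log N) → √6/π`
-/

set_option autoImplicit false

namespace Pool.Agent.Helper51.EA

open Finset Pool.Agent.Helper5.RM Pool.Agent.Helper5.RS MeasureTheory ProbabilityTheory Filter

lemma tg_eq5 (N : ℕ) : tg N = Real.sqrt 6 / Real.pi * Real.sqrt (N * Real.log N) := by
  unfold tg
  rw [Real.sqrt_mul (by positivity), Real.sqrt_div' _ (by positivity), Real.sqrt_sq Real.pi_pos.le]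

theorem exact_as {Ω : Type*} [MeasurableSpace Ω] (μ : Measure Ω) [IsProbabilityMeasure μ]
    (ε : Nat.Primes → Ω → ℝ) (hm : ∀ p, Measurable (ε p)) (hi : iIndepFun ε μ)
    (h2 : ∀ p, μ {ω | ε p ω = -1} = 1 / 2) (h1 : ∀ p, μ {ω | ε p ω = 1} = 1 / 2) :
    ∀ᵐ ω ∂μ, Tendsto (fun N : ℕ => (⨆ x : ℝ, ‖∑ n ∈ Finset.Icc 1 N, (rs (ext ε) ω n : ℂ) * e (n * x)‖) /
      Real.sqrt (N * Real.log N)) atTop (nhds (Real.sqrt 6 / Real.pi)) := by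
  have hU : ∀ᵐ ω ∂μ, ∀ k : ℕ, ∃ N0 : ℕ, ∀ N : ℕ, N0 ≤ N → ∀ x : ℝ,
      ‖∑ n ∈ Finset.Icc 1 N, (rs (ext ε) ω n : ℂ) * e (n * x)‖ ≤ (1 + 1 / ((k : ℝ) + 1)) * tg N := by
    rw [ae_all_iff]
    intro k
    exact upper_as μ ε hm hi h2 h1 _ (by positivity)
  have hL : ∀ᵐ ω ∂μ, ∀ k : ℕ, ∃ N0 : ℕ, ∀ N : ℕ, N0 ≤ N → ∃ x : ℝ,
      (1 - 1 / ((k : ℝ) + 1)) * tg N ≤ ‖∑ n ∈ Finset.Icc 1 N, (rs (ext ε) ω n : ℂ) * e (n * x)‖ := by
    rw [ae_all_iff]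
    intro k
    exact lower_as μ ε hm hi h2 h1 _ (by positivity)
  filter_upwards [hU, hL] with ω hu hl
  obtain ⟨F, hF⟩ : ∃ F : ℕ → ℝ → ℝ, F = fun N x => ‖∑ n ∈ Finset.Icc 1 N, (rs (ext ε) ω n : ℂ) * e (n * x)‖ := ⟨_, rfl⟩
  have hF' : ∀ N x, ‖∑ n ∈ Finset.Icc 1 N, (rs (ext ε) ω n : ℂ) * e (n * x)‖ = F N x := fun N x => by rw [hF]
  simp only [hF'] at hu hl ⊢
  have hbdd : ∀ N, BddAbove (Set.range (F N)) := by
    intro N
    refine ⟨∑ n ∈ Finset.Icc 1 N, ‖(rs (ext ε) ω n : ℂ)‖, ?_⟩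
    rintro _ ⟨x, rfl⟩
    rw [hF]
    refine (norm_sum_le _ _).trans (sum_le_sum fun n _ => ?_)
    rw [norm_mul, norm_e, mul_one]
  obtain ⟨c, hc⟩ : ∃ c : ℝ, c = Real.sqrt 6 / Real.pi := ⟨_, rfl⟩
  have hc0 : 0 < c := by rw [hc]; positivity
  rw [← hc, Metric.tendsto_atTop]
  intro r hr
  obtain ⟨k, hk⟩ := exists_nat_gt (c / r)
  have hk1 : c * (1 / ((k : ℝ) + 1)) < r := by
    rw [mul_one_div, div_lt_iff₀ (by positivity)]
    rw [div_lt_iff₀ hr] at hk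
    nlinarith
  obtain ⟨N1, hN1⟩ := hu k
  obtain ⟨N2, hN2⟩ := hl k
  refine ⟨max (max N1 N2) 2, fun N hN => ?_⟩
  have h1 : N1 ≤ N := (le_max_left _ _).trans ((le_max_left _ _).trans hN)
  have h2' : N2 ≤ N := (le_max_right _ _).trans ((le_max_left _ _).trans hN)
  have h3 : 2 ≤ N := (le_max_right _ _).trans hN
  have hNr : (2 : ℝ) ≤ N := by exact_mod_cast h3
  have hs : 0 < Real.sqrt (N * Real.log N) := by
    apply Real.sqrt_pos.2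
    have : 0 < Real.log N := Real.log_pos (by linarith)
    positivity
  have htg : tg N = c * Real.sqrt (N * Real.log N) := by rw [tg_eq5, hc]
  have e1 : (⨆ x, F N x) ≤ (1 + 1 / ((k : ℝ) + 1)) * tg N := ciSup_le fun x => hN1 N h1 x
  have e2 : (1 - 1 / ((k : ℝ) + 1)) * tg N ≤ ⨆ x, F N x := by
    obtain ⟨x, hx⟩ := hN2 N h2'
    exact hx.trans (le_ciSup (hbdd N) x)
  rw [htg] at e1 e2
  rw [Real.dist_eq, abs_lt]
  constructor
  · have : (1 - 1 / ((k : ℝ) + 1)) * c ≤ (⨆ x, F N x) / Real.sqrt (N * Real.log N) := by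
      rw [le_div_iff₀ hs]
      linarith
    linarith
  · have : (⨆ x, F N x) / Real.sqrt (N * Real.log N) ≤ (1 + 1 / ((k : ℝ) + 1)) * c := by
      rw [div_le_iff₀ hs]
      linarith
    linarith

end Pool.Agent.Helper51.EA
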