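import Pool.Agent.Helper5.EA.VSharp
import Pool.Agent.Helper63.EA.B1
import Pool.Agent.Helper54.EA.B2
import Pool.Agent.Helper53.EA.B3
import Pool.Agent.Helper1.EA.B4
import Pool.Agent.Helper1.EA.B9
import Pool.Agent.Helper1.EA.B10
import Pool.Agent.Helper33.EA.B8
import Pool.Agent.Helper64.EA.QTwo
import Pool.Agent.Helper64.EA.VarQ
import Pool.Agent.Helper16.EA.C5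
import Pool.Agent.Helper63.EA.C6
import Pool.Agent.Helper16.EA.C7
import Pool.Agent.Helper85.EA.D1
import Pool.Agent.Helper96.EA.D3

/-!
# Project EA: the upper bound, assembled from the blocks
-/

set_option autoImplicit false

namespace Pool.Agent.Helper51.EA

open Finset Pool.Agent.Helper5.RM Pool.Agent.Helper5.RS MeasureTheory ProbabilityTheory

/-- B4 -/
theorem point_far3 : ∃ (C7 : ℝ) (C0 N0 : ℕ), 0 < C7 ∧ ∀ N : ℕ, N0 ≤ N → ∀ θ D : ℝ, Far N θ D → LL N ^ C0 ≤ D → D ≤ N →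
    pr (PP N) (fun T => C7 * Real.sqrt (N * Real.log D) < ‖SN N T θ‖) ≤ D ^ (-(9 / 4) : ℝ) :=
  point_far3_of v_all

/-- B8 -/
theorem point_sharp (κ δ : ℝ) (hκ : 0 < κ) (hδ : 0 < δ) : ∃ N0 : ℕ, ∀ N : ℕ, N0 ≤ N → ∀ θ D : ℝ, Far N θ D →
    (N : ℝ) ^ κ ≤ D → D ≤ N →
    pr (PP N) (fun T => (1 + δ) * tg N < ‖SN N T θ‖) ≤ D ^ (-(9 / 4) : ℝ) + (N : ℝ) ^ (-(1 + δ)) :=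
  point_sharp_of v_sharp point_split az_dir κ δ hκ hδ

/-- B9 -/
theorem far_a (δ : ℝ) (hδ : 0 < δ) : ∃ (κ : ℝ) (C1 i0 : ℕ), 0 < κ ∧ ∀ i : ℕ, i0 ≤ i → ∀ a : ℕ, 2 ^ i ≤ a →
    a < 2 * 2 ^ i → ∀ x D : ℝ, Far (2 ^ a) x D → ((2 : ℝ) ^ i) ^ C1 ≤ D → D ≤ ((2 : ℝ) ^ a) ^ κ →
    pr (PP (2 ^ (2 * 2 ^ i))) (fun T => ∃ N : ℕ, 2 ^ a ≤ N ∧ N ≤ 2 ^ (a + 1) ∧
      δ * Real.sqrt (2 ^ a * 2 ^ i) < ‖SN N T x‖) ≤ 4 * D ^ (-(17 / 8) : ℝ) :=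
  far_a_of point_far3 δ hδ

/-- B10 -/
theorem far_b (κ δ : ℝ) (hκ : 0 < κ) (hδ : 0 < δ) : ∃ i0 : ℕ, ∀ i : ℕ, i0 ≤ i → ∀ a : ℕ, 2 ^ i ≤ a →
    a < 2 * 2 ^ i → ∀ x D : ℝ, Far (2 ^ a) x D → ((2 : ℝ) ^ a) ^ κ ≤ D → D ≤ 2 ^ a →
    pr (PP (2 ^ (2 * 2 ^ i))) (fun T => ∃ N : ℕ, 2 ^ a ≤ N ∧ N ≤ 2 ^ (a + 1) ∧
      (1 + δ) * tg N < ‖SN N T x‖) ≤ 4 * D ^ (-(17 / 8) : ℝ) + ((2 : ℝ) ^ a) ^ (-(1 + δ / 4)) :=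
  far_b_of point_sharp κ δ hκ hδ

/-- C4 -/
theorem var_VQ2 : ∃ C : ℝ, 0 < C ∧ ∀ (S : Finset ℕ) (z Y R q : ℕ) (j : ℤ) (ρ : ℕ), PP Y ⊆ S → 1 ≤ q → 1 ≤ Y →
    1 ≤ R → ρ ≤ R → 2 * |(j : ℝ)| * Y ≤ R →
    av S (fun T => (VQ z Y R q j ρ T - mQ z Y R ρ) ^ 2) ≤
      C * (q.divisors.card : ℝ) ^ 9 * LL Y ^ 2 * (4 + Real.log (tj j)) *
        (LL Y ^ 2 * (q * tj j) ^ (-(21 / 20) : ℝ) + LL Y / (q * tj j)) :=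
  var_VQ2_of quad_sum2

/-- C5 -/
theorem good_prob2 (C1 : ℕ) : ∃ i0 : ℕ, ∀ i : ℕ, i0 ≤ i → ∀ z Rs : ℕ, 1 ≤ Rs →
    pr (PP (2 ^ (2 * 2 ^ i))) (fun T => ¬ Good z (2 ^ (2 * 2 ^ i)) (2 ^ (4 * 2 ^ i)) Rs ((2 ^ i) ^ C1)
      (3 * (2 ^ i) ^ C1) (((2 : ℝ) ^ i) ^ (2 - 1 / 200 : ℝ)) T) ≤ ((2 : ℝ) ^ i) ^ (-(1 / 100) : ℝ) :=
  good_prob2_of var_VQ2 C1

/-- C7 -/
theorem near_unif2 (C1 ρ : ℕ) : ∃ i0 : ℕ, ∀ i : ℕ, i0 ≤ i →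
    pr (PP (2 ^ (2 * 2 ^ i))) (fun T => ∃ a jj N : ℕ, 2 ^ i ≤ a ∧ a < 2 * 2 ^ i ∧ jj < 2 ^ (a + ρ) ∧
      DD (2 ^ (a + ρ)) ((jj : ℝ) / (2 ^ (a + ρ) : ℕ)) < ((2 : ℝ) ^ i) ^ C1 ∧ 2 ^ a ≤ N ∧ N ≤ 2 ^ (a + 1) ∧
      Real.sqrt (2 ^ a) * ((2 : ℝ) ^ i) ^ (1 / 2 - 1 / 4000 : ℝ) < ‖SN N T ((jj : ℝ) / (2 ^ (a + ρ) : ℕ))‖) ≤
      ((2 : ℝ) ^ i) ^ (-(1 / 200) : ℝ) :=
  near_unif2_of C1 ρ (near_point2 C1) (good_prob2 C1)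

/-- D1 -/
theorem unif3 (δ : ℝ) (hδ : 0 < δ) (ρ : ℕ) : ∃ (c : ℝ) (i0 : ℕ), 0 < c ∧ ∀ i : ℕ, i0 ≤ i →
    pr (PP (2 ^ (2 * 2 ^ i))) (fun T => ∃ a jj N : ℕ, 2 ^ i ≤ a ∧ a < 2 * 2 ^ i ∧ jj < 2 ^ (a + ρ) ∧
      2 ^ a ≤ N ∧ N ≤ 2 ^ (a + 1) ∧ (1 + δ) * tg N < ‖SN N T ((jj : ℝ) / (2 ^ (a + ρ) : ℕ))‖) ≤
      ((2 : ℝ) ^ i) ^ (-c) :=
  unif3_of far_a far_b near_unif2 δ hδ ρ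

/-- D3 -/
theorem upper_as {Ω : Type*} [MeasurableSpace Ω] (μ : Measure Ω) [IsProbabilityMeasure μ]
    (ε : Nat.Primes → Ω → ℝ) (hm : ∀ p, Measurable (ε p)) (hi : iIndepFun ε μ)
    (h2 : ∀ p, μ {ω | ε p ω = -1} = 1 / 2) (h1 : ∀ p, μ {ω | ε p ω = 1} = 1 / 2) (δ : ℝ) (hδ : 0 < δ) :
    ∀ᵐ ω ∂μ, ∃ N0 : ℕ, ∀ N : ℕ, N0 ≤ N → ∀ x : ℝ,
      ‖∑ n ∈ Finset.Icc 1 N, (rs (ext ε) ω n : ℂ) * e (n * x)‖ ≤ (1 + δ) * tg N :=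
  upper_as_of unif3 μ ε hm hi h2 h1 δ hδ

end Pool.Agent.Helper51.EA
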