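import Pool.Agent.Helper5.EA.RestC
import Pool.Agent.Helper51.EA.OneS
import Pool.Agent.Helper84.EA.LowR
import Pool.Agent.Helper84.EA.Vb
import Pool.Agent.Helper85.EA.E10W
import Pool.Agent.Helper88.EA.E8
import Pool.Agent.Helper96.EA.D1w
import Pool.Agent.Helper11.EA.Step
import Pool.Agent.Helper99.EA.T8
import Pool.Agent.Helper16.EA.T4
import Pool.Agent.Helper5.EA.Up

/-!
# Project EA, part 2: the lower bound, assembled from the blocks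
-/

set_option autoImplicit false

namespace Pool.Agent.Helper51.EA

open Finset Pool.Agent.Helper5.RM Pool.Agent.Helper5.RS MeasureTheory ProbabilityTheory

/-- T6 -/
theorem one_NR (δ r : ℝ) (hδ : 0 < δ) (hr0 : 0 < r) (hr1 : r ≤ 1) (ω : ℂ) (hω : ‖ω‖ = 1) (a b : ℝ) (ha : 0 ≤ a) (hab : a < b)
    (hb : b ≤ 1) : ∃ (c : ℝ) (N0 : ℕ), 0 < c ∧ ∀ N : ℕ, N0 ≤ N →
    pr (PP N) (fun T => (cnt (4 * N) (fun x => a < x ∧ x < b ∧ r * (1 - δ) * tg N ≤ (ω * SN N T x).re) : ℝ) <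
      (N : ℝ) ^ (1 - r ^ 2 - δ)) ≤ (N : ℝ) ^ (-c) :=
  one_NR_of step (fun N y J hJ ω T _ _ hp hp' h1 h2 hne => XG_orthW N y J hJ ω T hp hp' h1 h2 hne)
    (fun N J hJ ω hω A T _ hp => XG_normW N J hJ ω hω A T hp) pb_inv smooth_le vb_le vb_ge rest_small cond_okW
    δ r hδ hr0 hr1 ω hω a b ha hab hb

/-- T7 -/
theorem low_blockR (δ r : ℝ) (hδ : 0 < δ) (hr0 : 0 < r) (hr1 : r ≤ 1) (ω : ℂ) (hω : ‖ω‖ = 1) (a b : ℝ) (ha : 0 ≤ a) (hab : a < b)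
    (hb : b ≤ 1) : ∃ (c : ℝ) (a0 : ℕ), 0 < c ∧ ∀ A : ℕ, a0 ≤ A →
    pr (PP (2 ^ (A + 1))) (fun T => ∃ N : ℕ, 2 ^ A ≤ N ∧ N ≤ 2 ^ (A + 1) ∧ ∀ N1 : ℕ, 2 ^ A ≤ N1 → N1 ≤ N →
      (cnt (4 * N1) (fun x => a < x ∧ x < b ∧ r * (1 - δ) * tg N ≤ (ω * SN N T x).re) : ℝ) < (N : ℝ) ^ (1 - r ^ 2 - δ)) ≤
      ((2 : ℝ) ^ A) ^ (-c) :=
  low_blockR_of one_NR δ r hδ hr0 hr1 ω hω a b ha hab hb

/-- T8 -/
theorem thick_lower {Ω : Type*} [MeasurableSpace Ω] (μ : Measure Ω) [IsProbabilityMeasure μ]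
    (ε : Nat.Primes → Ω → ℝ) (hm : ∀ p, Measurable (ε p)) (hi : iIndepFun ε μ)
    (h2 : ∀ p, μ {ω | ε p ω = -1} = 1 / 2) (h1 : ∀ p, μ {ω | ε p ω = 1} = 1 / 2) (δ r : ℝ) (hδ : 0 < δ) (hr0 : 0 < r)
    (hr1 : r ≤ 1) (w : ℂ) (hw : ‖w‖ = 1) (a b : ℝ) (ha : 0 ≤ a) (hab : a < b) (hb : b ≤ 1) :
    ∀ᵐ ω ∂μ, ∃ N0 : ℕ, ∀ N : ℕ, N0 ≤ N → (N : ℝ) ^ (-(r ^ 2) - δ) ≤ (volume {x : ℝ | a < x ∧ x < b ∧
      r * (1 - δ) * tg N ≤ (w * ∑ n ∈ Finset.Icc 1 N, (rs (ext ε) ω n : ℂ) * e (n * x)).re}).toReal :=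
  thick_lower_of low_blockR slow μ ε hm hi h2 h1 (fun d hd => upper_as μ ε hm hi h2 h1 d hd) δ r hδ hr0 hr1 w hw a b ha hab hb

end Pool.Agent.Helper51.EA
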