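import Pool.Agent.Helper5.EA.UpR
import Pool.Agent.Helper5.EA.LoR
import Pool.Agent.Helper11.EA.LdpAS

/-!
# Project EA, part 2: the large deviation principle
-/

set_option autoImplicit false

namespace Pool.Agent.Helper51.EA

open Finset Pool.Agent.Helper5.RM Pool.Agent.Helper5.RS MeasureTheory ProbabilityTheory Filter Pool.Agent.Helper11.EA

theorem ldp_as5 {Ω : Type*} [MeasurableSpace Ω] (μ : Measure Ω) [IsProbabilityMeasure μ]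
    (ε : Nat.Primes → Ω → ℝ) (hm : ∀ p, Measurable (ε p)) (hi : iIndepFun ε μ)
    (h2 : ∀ p, μ {ω | ε p ω = -1} = 1 / 2) (h1 : ∀ p, μ {ω | ε p ω = 1} = 1 / 2) :
    ∀ᵐ ω ∂μ, ∀ a b : ℝ, 0 ≤ a → a < b → b ≤ 1 → ∀ O : Set ℂ, IsOpen O →
      ((∃ z ∈ O, ‖z‖ < rd) → Tendsto (fun N : ℕ =>
        Real.log (volume {x : ℝ | x ∈ Set.Ioo a b ∧
          nrm (fun N x => ∑ n ∈ Finset.Icc 1 N, (rs (ext ε) ω n : ℂ) * e (n * x)) N x ∈ O}).toReal / Real.log N)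
        atTop (nhds (-(Real.pi ^ 2 / 6) * (Metric.infDist 0 O) ^ 2))) ∧
      (rd < Metric.infDist 0 O → ∀ᶠ N : ℕ in atTop, ∀ x : ℝ,
        nrm (fun N x => ∑ n ∈ Finset.Icc 1 N, (rs (ext ε) ω n : ℂ) * e (n * x)) N x ∉ O) :=
  ldp_as_of μ (fun ω N x => ∑ n ∈ Finset.Icc 1 N, (rs (ext ε) ω n : ℂ) * e (n * x))
    (fun δ r hδ hr0 hr1 => thick_upper μ ε hm hi h2 h1 δ r hδ hr0 hr1)
    (fun δ hδ => upper_as μ ε hm hi h2 h1 δ hδ)
    (fun δ r w a b hδ hr0 hr1 hw ha hab hb => thick_lower μ ε hm hi h2 h1 δ r hδ hr0 hr1 w hw a b ha hab hb)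

end Pool.Agent.Helper51.EA
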