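import Pool.Agent.Helper5.EA.VSharp
import Pool.Agent.Helper63.EA.B1
import Pool.Agent.Helper84.EA.Mert
import Pool.Agent.Helper84.EA.Sm

/-!
# Project EA, block E9, first part: the sets of cofactors, their means
-/

set_option autoImplicit false

namespace Pool.Agent.Helper51.EA

open Finset Pool.Agent.Helper5.RM Pool.Agent.Helper5.RS

/-- split of the full sum into the smooth part and the rest -/
lemma XG_split5 (N y : ℕ) (θ : ℝ) (p : ℕ) (T : Finset ℕ) :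
    XG N (Icc 1 N) θ p T = XG N (Sy N y) θ p T + XG N (Icc 1 N \ Sy N y) θ p T := by
  classical
  have h1 : MG N (Sy N y) p = (MG N (Icc 1 N) p).filter (fun m => m ∈ Sy N y) := by
    ext m
    unfold MG Sy
    simp only [mem_filter, mem_Icc]
    tauto
  have h2 : MG N (Icc 1 N \ Sy N y) p = (MG N (Icc 1 N) p).filter (fun m => ¬ m ∈ Sy N y) := by
    ext m
    unfold MG Sy
    simp only [mem_filter, mem_Icc, mem_sdiff]
    tauto
  unfold XG
  rw [h1, h2]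
  exact (sum_filter_add_sum_filter_not _ _ _).symm

/-- the cofactors of `p` with a second prime in the block of `p` -/
lemma card_block5 {N y y' p : ℕ} (hp : p ∈ Pb y y') :
    ((MG N (Icc 1 N \ Sy N y) p).card : ℝ) ≤ ∑ q ∈ Pb y y', (N : ℝ) * (1 / p) * (1 / q) := by
  classical
  have hp' := mem_filter.1 hp
  rw [mem_Ioc] at hp'
  have h1 : MG N (Icc 1 N \ Sy N y) p ⊆ (Pb y y').biUnion (fun q => (Ioc 0 (N / p)).filter (fun m => q ∣ m)) := by
    intro m hm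
    unfold MG Sy at hm
    simp only [mem_filter, mem_Icc, mem_sdiff] at hm
    obtain ⟨⟨h1, h2⟩, ⟨⟨-, h3⟩, h4⟩, h5, h6⟩ := hm
    have h7 : ∃ q ∈ m.primeFactors, y < q := by
      by_contra hcon
      push Not at hcon
      exact h4 ⟨⟨h1, h3⟩, hcon⟩
    obtain ⟨q, hq, hyq⟩ := h7
    rw [mem_biUnion]
    refine ⟨q, ?_, ?_⟩
    · unfold Pb
      rw [mem_filter, mem_Ioc]
      have := h6 q hq
      exact ⟨⟨hyq, by omega⟩, Nat.prime_of_mem_primeFactors hq⟩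
    · rw [mem_filter, mem_Ioc]
      exact ⟨⟨by omega, h2⟩, Nat.dvd_of_mem_primeFactors hq⟩
  have h2 : (MG N (Icc 1 N \ Sy N y) p).card ≤ ∑ q ∈ Pb y y', N / p / q := by
    refine (card_le_card h1).trans (card_biUnion_le.trans ?_)
    refine le_of_eq (sum_congr rfl fun q _ => ?_)
    exact Nat.Ioc_filter_dvd_card_eq_div _ _
  have h3 : ((∑ q ∈ Pb y y', N / p / q : ℕ) : ℝ) ≤ ∑ q ∈ Pb y y', (N : ℝ) * (1 / p) * (1 / q) := by
    push_cast
    refine sum_le_sum fun q _ => ?_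
    have e1 : ((N / p / q : ℕ) : ℝ) ≤ ((N / p : ℕ) : ℝ) / q := Nat.cast_div_le
    have e2 : ((N / p : ℕ) : ℝ) ≤ (N : ℝ) / p := Nat.cast_div_le
    calc ((N / p / q : ℕ) : ℝ) ≤ ((N / p : ℕ) : ℝ) / q := e1
      _ ≤ (N : ℝ) / p / q := div_le_div_of_nonneg_right e2 (Nat.cast_nonneg q)
      _ = (N : ℝ) * (1 / p) * (1 / q) := by ring
  exact le_trans (by exact_mod_cast h2) h3

lemma sum_block5 (N y y' : ℕ) :
    ∑ p ∈ Pb y y', ((MG N (Icc 1 N \ Sy N y) p).card : ℝ) ≤ N * (∑ p ∈ Pb y y', (1 : ℝ) / p) ^ 2 := by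
  refine (sum_le_sum fun p hp => card_block5 hp).trans (le_of_eq ?_)
  rw [sq, sum_mul_sum, mul_sum]
  refine sum_congr rfl fun p _ => ?_
  rw [mul_sum]
  exact sum_congr rfl fun q _ => by ring

/-- the cofactors of a prime -/
lemma card_MG5 (N : ℕ) (A : Finset ℕ) (p : ℕ) : ((MG N A p).card : ℝ) ≤ N * (1 / p) := by
  have h1 : (MG N A p).card ≤ N / p := by
    unfold MG
    refine (card_filter_le _ _).trans ?_
    rw [Nat.card_Icc, Nat.add_sub_cancel]
  calc ((MG N A p).card : ℝ) ≤ ((N / p : ℕ) : ℝ) := by exact_mod_cast h1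
    _ ≤ (N : ℝ) / p := Nat.cast_div_le
    _ = _ := by ring

/-- the small primes: smooth numbers -/
lemma sum_low5 (N B y : ℕ) : ∑ p ∈ (PP N).filter (fun p => B ≤ p ∧ p ≤ y), ((MG N (Icc 1 N) p).card : ℝ) ≤
    ((((Icc 1 N).filter (fun n => Squarefree n ∧ ∀ q ∈ n.primeFactors, q ≤ y)).card : ℕ) : ℝ) := by
  have h1 : ∑ p ∈ (PP N).filter (fun p => B ≤ p ∧ p ≤ y), (MG N (Icc 1 N) p).card ≤
      ((Icc 1 N).filter (fun n => Squarefree n ∧ ∀ q ∈ n.primeFactors, q ≤ y)).card := by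
    apply sum_MG_le (fun _ => Icc 1 N)
    · intro p hp
      exact (mem_PP.1 (mem_filter.1 hp).1).1
    · intro p hp m hm
      have hp0 := mem_filter.1 hp
      have hp1 := mem_PP.1 hp0.1
      unfold MG at hm
      rw [mem_filter, mem_Icc] at hm
      rw [mem_filter, mem_Icc]
      refine ⟨⟨Nat.mul_pos hp1.1.pos (by omega), ?_⟩, ?_, ?_⟩
      · calc p * m ≤ p * (N / p) := Nat.mul_le_mul_left _ hm.1.2
          _ ≤ N := Nat.mul_div_le _ _
      · rw [Nat.squarefree_mul_iff]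
        refine ⟨?_, hp1.1.prime.squarefree, hm.2.2.1⟩
        rw [Nat.Prime.coprime_iff_not_dvd hp1.1]
        intro hdvd
        have := hm.2.2.2 p (Nat.mem_primeFactors.2 ⟨hp1.1, hdvd, by omega⟩)
        omega
      · intro q hq
        rw [Nat.primeFactors_mul hp1.1.ne_zero (by omega), mem_union, hp1.1.primeFactors, mem_singleton] at hq
        rcases hq with h | h
        · rw [h]
          exact hp0.2.2
        · have := hm.2.2.2 q h
          omega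
  exact_mod_cast h1

/-- the variance over one set of primes -/
lemma V_set5 {N : ℕ} {θ D : ℝ} (hF : Far N θ D) {B z k w I : ℕ} {η : ℝ} (hP : Par N D B z k w I η)
    (hL8 : LL N ^ 8 ≤ B) (hL3 : 3 ≤ LL N) (hI : 3 ≤ I) {n : ℕ} (hn : (n : ℝ) ≤ 2 * LL N)
    (hnN : ∀ i < n, B * (B * 2 ^ i) ≤ N) (A s : Finset ℕ) (hs : ∀ p ∈ s, p.Prime ∧ B ≤ p ∧ p < B * 2 ^ n) :
    pr (PP N) (fun T => ∑ p ∈ s, ((MG N A p).card : ℝ) + 2 * N / LL N < ∑ p ∈ s, ‖XG N A θ p T‖ ^ 2) ≤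
      1 / (3 * (B : ℝ) * D ^ 4) := by
  have hL0 : 0 < LL N := by linarith
  have hD0 : 0 < D := by
    have := hP.hD4
    linarith
  have hB0 : (0 : ℝ) < B := by
    have := hP.hB36
    exact_mod_cast (by omega : 0 < B)
  have hN0 : (0 : ℝ) < N := by
    have := hP.hD4
    have := hP.hDN
    linarith
  obtain ⟨P, hPdef⟩ : ∃ P : ℕ → Finset ℕ, P = fun i => s.filter (fun p => B * 2 ^ i ≤ p ∧ p < B * 2 ^ (i + 1)) :=
    ⟨_, rfl⟩
  have hPp : ∀ i ∈ range n, ∀ p ∈ P i, p.Prime ∧ B * 2 ^ i ≤ p ∧ p < 2 * (B * 2 ^ i) := by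
    intro i _ p hp
    rw [hPdef] at hp
    have hp' := mem_filter.1 hp
    refine ⟨(hs p hp'.1).1, hp'.2.1, ?_⟩
    have : B * 2 ^ (i + 1) = 2 * (B * 2 ^ i) := by ring
    omega
  have hHB : ∀ i ∈ range n, B ≤ B * 2 ^ i := fun i _ => Nat.le_mul_of_pos_right _ (by positivity)
  have hHN : ∀ i ∈ range n, B * (B * 2 ^ i) ≤ N := fun i hi => hnN i (mem_range.1 hi)
  have hm := pieces_minus hF hP hL8 hL3 hI (range n) (fun i => B * 2 ^ i) (fun _ => A) P hHB hHN hPp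
  have hs' : s = s.filter (fun p => B ≤ p ∧ p < B * 2 ^ n) := by
    rw [filter_true_of_mem]
    intro p hp
    exact ⟨(hs p hp).2.1, (hs p hp).2.2⟩
  refine (pr_mono ?_).trans (hm.trans ?_)
  · intro T _ hlt
    by_contra hcon
    push Not at hcon
    apply absurd hlt
    rw [not_lt]
    have e3 : ∑ i ∈ range n, ∑ p ∈ P i, ‖XG N A θ p T‖ ^ 2 ≤
        ∑ i ∈ range n, (∑ p ∈ P i, ((MG N A p).card : ℝ) + (N : ℝ) / LL N ^ 2) := by
      refine sum_le_sum fun i hi => ?_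
      have := (abs_le.1 (hcon i hi)).2
      linarith
    have e4 : ∑ i ∈ range n, ∑ p ∈ P i, ((MG N A p).card : ℝ) = ∑ p ∈ s, ((MG N A p).card : ℝ) := by
      conv_rhs => rw [hs']
      rw [sum_dyadic, hPdef]
    have e5 : ∑ p ∈ s, ‖XG N A θ p T‖ ^ 2 = ∑ i ∈ range n, ∑ p ∈ P i, ‖XG N A θ p T‖ ^ 2 := by
      conv_lhs => rw [hs']
      rw [sum_dyadic, hPdef]
    rw [sum_add_distrib, sum_const, card_range, nsmul_eq_mul, e4] at e3
    rw [e5]
    refine e3.trans ?_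
    have e6 : (n : ℝ) * ((N : ℝ) / LL N ^ 2) ≤ 2 * LL N * ((N : ℝ) / LL N ^ 2) := by gcongr
    have e7 : 2 * LL N * ((N : ℝ) / LL N ^ 2) = 2 * N / LL N := by
      field_simp
    linarith
  · rw [card_range]
    calc (n : ℝ) * (1 / (6 * (B : ℝ) * LL N * D ^ 4)) ≤ 2 * LL N * (1 / (6 * (B : ℝ) * LL N * D ^ 4)) := by gcongr
      _ = 1 / (3 * (B : ℝ) * D ^ 4) := by
        field_simp
        ring

/-! ### The block boundaries -/

lemma uu_pos5 {c η : ℝ} (hc : c < 1) (hη : 0 < η) (K b : ℕ) : 0 < uu c η K b := by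
  unfold uu
  have : 0 < 1 - c := by linarith
  positivity

lemma uu_succ5 (c η : ℝ) (K b : ℕ) : uu c η K (b + 1) = (1 + η) * uu c η K b := by
  unfold uu
  rw [pow_succ]
  ring

lemma uu_mono5 {c η : ℝ} (hc : c < 1) (hη : 0 < η) (K : ℕ) : Monotone (uu c η K) := by
  refine monotone_nat_of_le_succ fun b => ?_
  rw [uu_succ5]
  nlinarith [uu_pos5 hc hη K b]

lemma uu_K5 {c η : ℝ} (hη : 0 < η) (K : ℕ) : uu c η K K = 1 - c := by
  unfold uu
  have : 0 < (1 + η) ^ K := by positivity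
  field_simp

lemma yb_mono5 {N : ℕ} (hN : 1 ≤ N) {c η : ℝ} (hc : c < 1) (hη : 0 < η) (K : ℕ) : Monotone (yb N c η K) := by
  intro a b hab
  unfold yb
  apply Nat.floor_mono
  exact Real.rpow_le_rpow_of_exponent_le (by exact_mod_cast hN) (uu_mono5 hc hη K hab)

lemma yb_le5 (N : ℕ) (c η : ℝ) (K b : ℕ) : (yb N c η K b : ℝ) ≤ (N : ℝ) ^ uu c η K b := by
  unfold yb
  exact Nat.floor_le (by positivity)

lemma yb_log5 {N : ℕ} (hN : 1 ≤ N) {c η : ℝ} (hc : c < 1) (hη : 0 < η) (K b : ℕ) :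
    1 ≤ yb N c η K b ∧ uu c η K b * Real.log N - Real.log 2 ≤ Real.log (yb N c η K b) ∧
      Real.log (yb N c η K b) ≤ uu c η K b * Real.log N := by
  have hN0 : (0 : ℝ) < N := by exact_mod_cast hN
  have hN1 : (1 : ℝ) ≤ N := by exact_mod_cast hN
  have hu := uu_pos5 hc hη K b
  have h1 : (1 : ℝ) ≤ (N : ℝ) ^ uu c η K b := Real.one_le_rpow hN1 hu.le
  have h2 : 1 ≤ yb N c η K b := by
    unfold yb
    exact Nat.le_floor (by exact_mod_cast h1)
  have h3 : (1 : ℝ) ≤ yb N c η K b := by exact_mod_cast h2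
  have h4 : (N : ℝ) ^ uu c η K b ≤ 2 * yb N c η K b := by
    have := Nat.lt_floor_add_one ((N : ℝ) ^ uu c η K b)
    unfold yb at h3 ⊢
    linarith
  refine ⟨h2, ?_, ?_⟩
  · have h5 := Real.log_le_log (by positivity) h4
    rw [Real.log_rpow hN0, Real.log_mul (by norm_num) (by positivity)] at h5
    linarith
  · have h5 := Real.log_le_log (by positivity) (yb_le5 N c η K b)
    rwa [Real.log_rpow hN0] at h5

lemma K_eta5 {c η u : ℝ} {K : ℕ} (hc0 : 0 < c) (hu : 0 < u) (hη : 0 < η) (h : u / 2 ≤ uu c η K 0) :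
    (K : ℝ) * η ≤ 2 / u := by
  have h1 : 1 + (K : ℝ) * η ≤ (1 + η) ^ K := one_add_mul_le_pow (by linarith) K
  have h2 : 0 < (1 + η) ^ K := by positivity
  unfold uu at h
  rw [pow_zero, mul_one, le_div_iff₀ h2] at h
  have h3 : u / 2 * (1 + η) ^ K ≤ 1 := by linarith
  rw [le_div_iff₀ hu]
  nlinarith

/-- the reciprocals of the primes of one block -/
lemma block_inv5 {C : ℝ} (hpb : ∀ y y' : ℕ, 2 ≤ y → y ≤ y' →
    ∑ p ∈ Pb y y', (1 : ℝ) / p ≤ (Real.log ((y' : ℝ) / y) + C) / Real.log y) {N : ℕ} (hN : 1 ≤ N) {c η u : ℝ}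
    {K b : ℕ} (hc : c < 1) (hη : 0 < η) (hη1 : η ≤ 1) (hu : u / 2 ≤ uu c η K 0)
    (hN2 : 3 * Real.log 2 + |C| ≤ η * (u / 2 * Real.log N)) :
    ∑ p ∈ Pb (yb N c η K b) (yb N c η K (b + 1)), (1 : ℝ) / p ≤ 2 * η := by
  have hlN : 0 ≤ Real.log N := Real.log_natCast_nonneg N
  have hl2 : 0 < Real.log 2 := Real.log_pos (by norm_num)
  obtain ⟨h1, h2, h3⟩ := yb_log5 hN hc hη K b
  obtain ⟨h1', h2', h3'⟩ := yb_log5 hN hc hη K (b + 1)
  have hub : u / 2 ≤ uu c η K b := hu.trans (uu_mono5 hc hη K (Nat.zero_le b))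
  obtain ⟨X, hX⟩ : ∃ X : ℝ, X = uu c η K b * Real.log N := ⟨_, rfl⟩
  have hX1 : u / 2 * Real.log N ≤ X := by
    rw [hX]
    exact mul_le_mul_of_nonneg_right hub hlN
  have hX2 : 3 * Real.log 2 + |C| ≤ η * X := hN2.trans (mul_le_mul_of_nonneg_left hX1 hη.le)
  have hX3 : 3 * Real.log 2 ≤ X := by
    have : 0 ≤ |C| := abs_nonneg C
    have h4 : 0 ≤ X := by
      by_contra hcon
      rw [not_le] at hcon
      nlinarith
    nlinarith
  rw [← hX] at h2 h3
  have hy2 : 2 ≤ yb N c η K b := by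
    by_contra hcon
    have h5 : yb N c η K b = 1 := by omega
    rw [h5, Nat.cast_one, Real.log_one] at h2
    linarith
  have hly : 0 < Real.log (yb N c η K b) := by linarith
  have hy0 : (0 : ℝ) < yb N c η K b := by exact_mod_cast h1
  have hy0' : (0 : ℝ) < yb N c η K (b + 1) := by exact_mod_cast h1'
  have h6 := hpb _ _ hy2 (yb_mono5 hN hc hη K (Nat.le_succ b))
  refine h6.trans ?_
  rw [div_le_iff₀ hly, Real.log_div hy0'.ne' hy0.ne']
  rw [uu_succ5, mul_assoc, ← hX] at h3'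
  have h7 : C ≤ |C| := le_abs_self C
  nlinarith

end Pool.Agent.Helper51.EA
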