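import Pool.Agent.Helper5.EA.RestA

/-!
# Project EA, block E9, second part: splitting the sum over the primes
-/

set_option autoImplicit false

namespace Pool.Agent.Helper51.EA

open Finset Pool.Agent.Helper5.RM Pool.Agent.Helper5.RS

/-- the blocks fill `(y 0, y K]` -/
lemma sum_blocks5 {M : Type*} [AddCommMonoid M] {y : ℕ → ℕ} (hy : Monotone y) (K : ℕ) (g : ℕ → M) :
    ∑ b ∈ range K, ∑ p ∈ Pb (y b) (y (b + 1)), g p = ∑ p ∈ Pb (y 0) (y K), g p := by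
  classical
  induction K with
  | zero =>
    rw [sum_range_zero]
    unfold Pb
    rw [Ioc_self, filter_empty, sum_empty]
  | succ K ih =>
    rw [sum_range_succ, ih, ← sum_union]
    · refine sum_congr ?_ fun _ _ => rfl
      ext p
      unfold Pb
      rw [mem_union, mem_filter, mem_filter, mem_filter, mem_Ioc, mem_Ioc, mem_Ioc]
      have h1 : y 0 ≤ y K := hy (Nat.zero_le K)
      have h2 : y K ≤ y (K + 1) := hy (Nat.le_succ K)
      constructor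
      · rintro (⟨⟨a, b⟩, c⟩ | ⟨⟨a, b⟩, c⟩)
        · exact ⟨⟨a, by omega⟩, c⟩
        · exact ⟨⟨by omega, b⟩, c⟩
      · rintro ⟨⟨a, b⟩, c⟩
        rcases Nat.lt_or_ge (y K) p with h | h
        · exact Or.inr ⟨⟨h, b⟩, c⟩
        · exact Or.inl ⟨⟨a, h⟩, c⟩
    · rw [disjoint_left]
      intro p h1 h2
      unfold Pb at h1 h2
      rw [mem_filter, mem_Ioc] at h1 h2
      omega

/-- the primes in `[B, N]`: low, blocks, high, top -/
lemma sum_four5 {M : Type*} [AddCommMonoid M] {y : ℕ → ℕ} (hy : Monotone y) {N B K H0 : ℕ} (hB : B ≤ y 0)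
    (hH : y K < H0) (hHN : H0 ≤ N) (g : ℕ → M) :
    ∑ p ∈ (PP N).filter (fun p => B ≤ p), g p =
      ((∑ p ∈ (PP N).filter (fun p => B ≤ p ∧ p ≤ y 0), g p + ∑ b ∈ range K, ∑ p ∈ Pb (y b) (y (b + 1)), g p) +
        ∑ p ∈ (PP N).filter (fun p => y K < p ∧ p < H0), g p) + ∑ p ∈ (PP N).filter (fun p => H0 ≤ p), g p := by
  classical
  have h0K : y 0 ≤ y K := hy (Nat.zero_le K)
  rw [sum_blocks5 hy]
  have e1 : Disjoint ((PP N).filter (fun p => B ≤ p ∧ p ≤ y 0)) (Pb (y 0) (y K)) := by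
    rw [disjoint_left]
    intro p h1 h2
    unfold Pb at h2
    rw [mem_filter] at h1 h2
    rw [mem_Ioc] at h2
    omega
  have e2 : Disjoint ((PP N).filter (fun p => B ≤ p ∧ p ≤ y 0) ∪ Pb (y 0) (y K))
      ((PP N).filter (fun p => y K < p ∧ p < H0)) := by
    rw [disjoint_left]
    intro p h1 h2
    unfold Pb at h1
    rw [mem_union, mem_filter, mem_filter, mem_Ioc] at h1
    rw [mem_filter] at h2
    omega
  have e3 : Disjoint (((PP N).filter (fun p => B ≤ p ∧ p ≤ y 0) ∪ Pb (y 0) (y K)) ∪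
      ((PP N).filter (fun p => y K < p ∧ p < H0))) ((PP N).filter (fun p => H0 ≤ p)) := by
    rw [disjoint_left]
    intro p h1 h2
    unfold Pb at h1
    rw [mem_union, mem_union, mem_filter, mem_filter, mem_filter, mem_Ioc] at h1
    rw [mem_filter] at h2
    omega
  rw [← sum_union e1, ← sum_union e2, ← sum_union e3]
  refine sum_congr ?_ fun _ _ => rfl
  ext p
  unfold Pb
  rw [mem_union, mem_union, mem_union, mem_filter, mem_filter, mem_filter, mem_filter, mem_filter, mem_Ioc, mem_PP]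
  constructor
  · rintro ⟨⟨hp, hpN⟩, hBp⟩
    rcases Nat.lt_or_ge (y 0) p with h | h
    · rcases Nat.lt_or_ge (y K) p with h' | h'
      · rcases Nat.lt_or_ge p H0 with h'' | h''
        · exact Or.inl (Or.inr ⟨⟨hp, hpN⟩, h', h''⟩)
        · exact Or.inr ⟨⟨hp, hpN⟩, h''⟩
      · exact Or.inl (Or.inl (Or.inr ⟨⟨h, h'⟩, hp⟩))
    · exact Or.inl (Or.inl (Or.inl ⟨⟨hp, hpN⟩, hBp, h⟩))
  · rintro (((⟨⟨hp, hpN⟩, h1, h2⟩ | ⟨⟨h1, h2⟩, hp⟩) | ⟨⟨hp, hpN⟩, h1, h2⟩) | ⟨⟨hp, hpN⟩, h1⟩)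
    · exact ⟨⟨hp, hpN⟩, h1⟩
    · exact ⟨⟨hp, by omega⟩, by omega⟩
    · exact ⟨⟨hp, hpN⟩, by omega⟩
    · exact ⟨⟨hp, hpN⟩, by omega⟩

/-- the coefficient of the sign of `p` in `S_1 - Mn` -/
noncomputable def vr (N : ℕ) (y : ℕ → ℕ) (K : ℕ) (θ : ℝ) (p : ℕ) (T : Finset ℕ) : ℂ :=
  XG N (Icc 1 N) θ p T - ∑ b ∈ range K, (if y b < p ∧ p ≤ y (b + 1) then XG N (Sy N (y b)) θ p T else 0)

lemma vr_pred (N : ℕ) (y : ℕ → ℕ) (K : ℕ) (θ : ℝ) (p : ℕ) : Pred p (vr N y K θ p) := by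
  intro T
  unfold vr
  rw [XG_pred N (Icc 1 N) θ p T]
  congr 1
  refine sum_congr rfl fun b _ => ?_
  rw [XG_pred N (Sy N (y b)) θ p T]

lemma vr_out {N : ℕ} {y : ℕ → ℕ} (hy : Monotone y) {K : ℕ} {p : ℕ} (h : p ≤ y 0 ∨ y K < p) (θ : ℝ) (T : Finset ℕ) :
    vr N y K θ p T = XG N (Icc 1 N) θ p T := by
  unfold vr
  rw [sum_eq_zero, sub_zero]
  intro b hb
  rw [mem_range] at hb
  rw [if_neg]
  rintro ⟨h1, h2⟩
  have h3 : y 0 ≤ y b := hy (Nat.zero_le b)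
  have h4 : y (b + 1) ≤ y K := hy hb
  omega

lemma vr_in {N : ℕ} {y : ℕ → ℕ} (hy : Monotone y) {K b : ℕ} (hb : b < K) {p : ℕ} (hp : p ∈ Pb (y b) (y (b + 1)))
    (θ : ℝ) (T : Finset ℕ) : vr N y K θ p T = XG N (Icc 1 N \ Sy N (y b)) θ p T := by
  unfold Pb at hp
  rw [mem_filter, mem_Ioc] at hp
  unfold vr
  rw [sum_eq_single b]
  · rw [if_pos hp.1, XG_split5 N (y b) θ p T]
    ring
  · intro b' _ hne
    rw [if_neg]
    rintro ⟨h1, h2⟩
    rcases Nat.lt_or_ge b' b with h | h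
    · have : y (b' + 1) ≤ y b := hy h
      omega
    · have : y (b + 1) ≤ y b' := hy (by omega)
      omega
  · intro h
    exact absurd (mem_range.2 hb) h

/-- `S_1 - Mn` as a sum over the primes -/
lemma S1_sub_Mn5 {y : ℕ → ℕ} (hy : Monotone y) {N B z K H0 : ℕ} (hB2 : 2 ≤ B) (hzB : z < B) (hB : B ≤ y 0)
    (hH : y K < H0) (hHN : H0 ≤ N) (θ : ℝ) (T : Finset ℕ) :
    ∑ l ∈ LI N B z 1, (rf T l : ℂ) * XX N θ l T - Mn N y K θ T =
      ∑ p ∈ PP N, (sg T p : ℂ) * (if B ≤ p then vr N y K θ p T else 0) := by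
  have e0 : ∑ l ∈ LI N B z 1, (rf T l : ℂ) * XX N θ l T =
      ∑ p ∈ (PP N).filter (fun p => B ≤ p), (sg T p : ℂ) * XG N (Icc 1 N) θ p T := by
    rw [LI1_eq hB2 hzB]
    refine sum_congr rfl fun p hp => ?_
    have hpp := (mem_PP.1 (mem_filter.1 hp).1).1
    rw [XX_eq_XG hpp, rf_sqf hpp.prime.squarefree, hpp.primeFactors]
    unfold wal
    rw [prod_singleton]
  have e1 : ∑ p ∈ PP N, (sg T p : ℂ) * (if B ≤ p then vr N y K θ p T else 0) =
      ∑ p ∈ (PP N).filter (fun p => B ≤ p), (sg T p : ℂ) * vr N y K θ p T := by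
    rw [sum_filter]
    refine sum_congr rfl fun p _ => ?_
    split_ifs <;> simp
  rw [e0, e1, sum_four5 hy hB hH hHN, sum_four5 hy hB hH hHN]
  have f1 : ∑ p ∈ (PP N).filter (fun p => B ≤ p ∧ p ≤ y 0), (sg T p : ℂ) * vr N y K θ p T =
      ∑ p ∈ (PP N).filter (fun p => B ≤ p ∧ p ≤ y 0), (sg T p : ℂ) * XG N (Icc 1 N) θ p T :=
    sum_congr rfl fun p hp => by rw [vr_out hy (Or.inl (mem_filter.1 hp).2.2)]
  have f3 : ∑ p ∈ (PP N).filter (fun p => y K < p ∧ p < H0), (sg T p : ℂ) * vr N y K θ p T =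
      ∑ p ∈ (PP N).filter (fun p => y K < p ∧ p < H0), (sg T p : ℂ) * XG N (Icc 1 N) θ p T :=
    sum_congr rfl fun p hp => by rw [vr_out hy (Or.inr (mem_filter.1 hp).2.1)]
  have f4 : ∑ p ∈ (PP N).filter (fun p => H0 ≤ p), (sg T p : ℂ) * vr N y K θ p T =
      ∑ p ∈ (PP N).filter (fun p => H0 ≤ p), (sg T p : ℂ) * XG N (Icc 1 N) θ p T :=
    sum_congr rfl fun p hp => by rw [vr_out hy (Or.inr (lt_of_lt_of_le hH (mem_filter.1 hp).2))]
  have f2 : ∑ b ∈ range K, ∑ p ∈ Pb (y b) (y (b + 1)), (sg T p : ℂ) * XG N (Icc 1 N) θ p T =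
      ∑ b ∈ range K, ∑ p ∈ Pb (y b) (y (b + 1)), (sg T p : ℂ) * vr N y K θ p T + Mn N y K θ T := by
    unfold Mn
    rw [← sum_add_distrib]
    refine sum_congr rfl fun b hb => ?_
    rw [← sum_add_distrib]
    refine sum_congr rfl fun p hp => ?_
    rw [vr_in hy (mem_range.1 hb) hp, XG_split5 N (y b) θ p T]
    ring
  rw [f1, f2, f3, f4]
  ring

/-- the variance of `S_1 - Mn`, split -/
lemma var_four5 {y : ℕ → ℕ} (hy : Monotone y) {N B K H0 : ℕ} (hB : B ≤ y 0)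
    (hH : y K < H0) (hHN : H0 ≤ N) (θ : ℝ) (T : Finset ℕ) :
    ∑ p ∈ PP N, ‖(if B ≤ p then vr N y K θ p T else 0 : ℂ)‖ ^ 2 =
      ((∑ p ∈ (PP N).filter (fun p => B ≤ p ∧ p ≤ y 0), ‖XG N (Icc 1 N) θ p T‖ ^ 2 +
        ∑ b ∈ range K, ∑ p ∈ Pb (y b) (y (b + 1)), ‖XG N (Icc 1 N \ Sy N (y b)) θ p T‖ ^ 2) +
        ∑ p ∈ (PP N).filter (fun p => y K < p ∧ p < H0), ‖XG N (Icc 1 N) θ p T‖ ^ 2) +
      ∑ p ∈ (PP N).filter (fun p => H0 ≤ p), ‖XX N θ p T‖ ^ 2 := by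
  have e1 : ∑ p ∈ PP N, ‖(if B ≤ p then vr N y K θ p T else 0 : ℂ)‖ ^ 2 =
      ∑ p ∈ (PP N).filter (fun p => B ≤ p), ‖vr N y K θ p T‖ ^ 2 := by
    rw [sum_filter]
    refine sum_congr rfl fun p _ => ?_
    split_ifs <;> simp
  rw [e1, sum_four5 hy hB hH hHN]
  congr 1
  · congr 1
    · congr 1
      · exact sum_congr rfl fun p hp => by rw [vr_out hy (Or.inl (mem_filter.1 hp).2.2)]
      · exact sum_congr rfl fun b hb => sum_congr rfl fun p hp => by rw [vr_in hy (mem_range.1 hb) hp]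
    · exact sum_congr rfl fun p hp => by rw [vr_out hy (Or.inr (mem_filter.1 hp).2.1)]
  · refine sum_congr rfl fun p hp => ?_
    rw [vr_out hy (Or.inr (lt_of_lt_of_le hH (mem_filter.1 hp).2)), XX_eq_XG (mem_PP.1 (mem_filter.1 hp).1).1]

end Pool.Agent.Helper51.EA
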