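import Pool.Agent.Helper5.EA.RestB

/-!
# Project EA, block E9: the remaining part of the sum is small at one far point
-/

set_option autoImplicit false

namespace Pool.Agent.Helper51.EA

open Finset Pool.Agent.Helper5.RM Pool.Agent.Helper5.RS

/-- the probabilities -/
private lemma prob5 {D L B : ℝ} {N I K : ℕ} (hD4 : 4 ≤ D) (hL3 : 3 ≤ L) (hB8 : L ^ 8 ≤ B) (hBD : B ^ 4 ≤ D)
    (hI : (I : ℝ) ≤ 2 * L) (hK : (K : ℝ) + 2 ≤ L) (hN : 2 ≤ (N : ℝ)) :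
    (2 * (I : ℝ) ^ 2 * D ^ (-(5 / 2) : ℝ) + 1 / D ^ 4) + ((K + 2 : ℕ) : ℝ) * (1 / (3 * B * D ^ 4)) +
      2 * Real.exp (-(3 * Real.log N)) ≤ D ^ (-(9 / 4) : ℝ) + (N : ℝ) ^ (-(2 : ℝ)) := by
  have hD0 : 0 < D := by linarith
  have hN0 : (0 : ℝ) < N := by linarith
  obtain ⟨E, hE⟩ : ∃ E : ℝ, E = D ^ (-(9 / 4) : ℝ) := ⟨_, rfl⟩
  have hE0 : 0 < E := by rw [hE]; positivity
  have hB1 : 1 ≤ B := by
    have : (1 : ℝ) ≤ L ^ 8 := one_le_pow₀ (by linarith)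
    linarith
  have h1 : 16 * L ^ 2 ≤ D ^ (1 / 4 : ℝ) := by
    have e1 : B ≤ D ^ (1 / 4 : ℝ) := by
      have : B = (B ^ 4) ^ (1 / 4 : ℝ) := by
        rw [← Real.rpow_natCast, ← Real.rpow_mul (by linarith)]
        norm_num
      rw [this]
      exact Real.rpow_le_rpow (by positivity) hBD (by norm_num)
    have e2 : 16 * L ^ 2 ≤ L ^ 8 := by
      have e3 : (16 : ℝ) ≤ L ^ 6 := by
        have : (3 : ℝ) ^ 6 ≤ L ^ 6 := pow_le_pow_left₀ (by norm_num) hL3 6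
        norm_num at this
        linarith
      calc 16 * L ^ 2 ≤ L ^ 6 * L ^ 2 := by gcongr
        _ = L ^ 8 := by ring
    linarith
  have h2 : 2 * (I : ℝ) ^ 2 * D ^ (-(5 / 2) : ℝ) ≤ 1 / 2 * E := by
    have e1 : D ^ (-(5 / 2) : ℝ) = D ^ (-(1 / 4) : ℝ) * E := by
      rw [hE, ← Real.rpow_add hD0]
      congr 1
      norm_num
    have e2 : D ^ (-(1 / 4) : ℝ) = (D ^ (1 / 4 : ℝ))⁻¹ := Real.rpow_neg hD0.le _
    have e3 : 0 < D ^ (1 / 4 : ℝ) := by positivity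
    have e4 : 2 * (I : ℝ) ^ 2 ≤ 8 * L ^ 2 := by
      have : (I : ℝ) ^ 2 ≤ (2 * L) ^ 2 := pow_le_pow_left₀ (Nat.cast_nonneg I) hI 2
      nlinarith
    have e5 : 8 * L ^ 2 * (D ^ (1 / 4 : ℝ))⁻¹ ≤ 1 / 2 := by
      rw [← div_eq_mul_inv, div_le_iff₀ e3]
      linarith
    rw [e1, e2]
    calc 2 * (I : ℝ) ^ 2 * ((D ^ (1 / 4 : ℝ))⁻¹ * E) ≤ 8 * L ^ 2 * ((D ^ (1 / 4 : ℝ))⁻¹ * E) := by gcongr
      _ = (8 * L ^ 2 * (D ^ (1 / 4 : ℝ))⁻¹) * E := by ring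
      _ ≤ 1 / 2 * E := by gcongr
  have h3 : 1 / D ^ 4 ≤ 1 / 4 * E := by
    have e1 : 1 / D ^ 4 = D ^ (-(7 / 4) : ℝ) * E := by
      rw [hE, ← Real.rpow_add hD0, one_div, ← Real.rpow_natCast, ← Real.rpow_neg hD0.le]
      congr 1
      norm_num
    have e2 : D ^ (-(7 / 4) : ℝ) ≤ D ^ (-(1) : ℝ) := Real.rpow_le_rpow_of_exponent_le (by linarith) (by norm_num)
    have e3 : D ^ (-(1) : ℝ) ≤ 1 / 4 := by
      rw [Real.rpow_neg_one, ← one_div]
      exact one_div_le_one_div_of_le (by norm_num) hD4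
    rw [e1]
    have e4 := e2.trans e3
    gcongr
  have h4 : ((K + 2 : ℕ) : ℝ) * (1 / (3 * B * D ^ 4)) ≤ 1 / D ^ 4 := by
    have e1 : ((K + 2 : ℕ) : ℝ) ≤ B := by
      push_cast
      have : L ≤ L ^ 8 := le_self_pow₀ (by linarith) (by norm_num)
      linarith
    have hB0 : 0 < B := by linarith
    calc ((K + 2 : ℕ) : ℝ) * (1 / (3 * B * D ^ 4)) ≤ B * (1 / (3 * B * D ^ 4)) := by gcongr
      _ = 1 / 3 * (1 / D ^ 4) := by
        field_simp
      _ ≤ 1 * (1 / D ^ 4) := by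
        have : 0 ≤ 1 / D ^ 4 := by positivity
        gcongr
        norm_num
      _ = _ := one_mul _
  have h5 : 2 * Real.exp (-(3 * Real.log N)) ≤ (N : ℝ) ^ (-(2 : ℝ)) := by
    have e1 : Real.exp (-(3 * Real.log N)) = (N : ℝ) ^ (-(3 : ℝ)) := by
      rw [Real.rpow_def_of_pos hN0]
      congr 1
      ring
    have e2 : (N : ℝ) ^ (-(3 : ℝ)) = (N : ℝ) ^ (-(2 : ℝ)) * (N : ℝ) ^ (-(1 : ℝ)) := by
      rw [← Real.rpow_add hN0]
      congr 1
      norm_num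
    have e3 : (N : ℝ) ^ (-(1 : ℝ)) ≤ 1 / 2 := by
      rw [Real.rpow_neg_one, ← one_div]
      exact one_div_le_one_div_of_le (by norm_num) hN
    have e4 : 0 < (N : ℝ) ^ (-(2 : ℝ)) := by positivity
    rw [e1, e2]
    nlinarith
  rw [← hE]
  linarith

private lemma aux1 {a b c x : ℝ} (h1 : a ≤ b * x) (h2 : b ≤ c) (hx : 0 ≤ x) : a ≤ c * x :=
  h1.trans (mul_le_mul_of_nonneg_right h2 hx)

private lemma aux2 {C N e l : ℝ} (h : C ≤ l * e) (hN : 0 ≤ N) : C * N ≤ e * N * l := by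
  calc C * N ≤ (l * e) * N := mul_le_mul_of_nonneg_right h hN
    _ = e * N * l := by ring

private lemma pi6 : 6 / Real.pi ^ 2 ≤ 1 := by
  have hπ := Real.pi_pos
  rw [div_le_one (by positivity)]
  have := Real.pi_gt_three
  nlinarith

private lemma aux5 {c l y : ℝ} (hc : c ≤ 1 / 4) (hl : 4 ≤ l) (h : (1 - c) * l - Real.log 2 ≤ y) : 1 / 2 * l ≤ y := by
  have := Real.log_two_lt_d9
  nlinarith

private lemma aux6 {c l y e C a : ℝ} (e1 : l - y ≤ c * l + a) (e2 : a + C ≤ e / 2 * l) (e3 : c * l ≤ e / 2 * l)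
    (hy : 1 / 2 * l ≤ y) (he : 0 < e) : l - y + C ≤ 2 * e * y := by
  nlinarith

private lemma aux7 {k l e : ℝ} (h : 2 * k ≤ l * e) (he : 0 < e) : 2 * k ≤ e * (1 + l) := by
  nlinarith

/-- E9. -/
theorem rest_small (κ δ : ℝ) (hκ : 0 < κ) (hδ : 0 < δ) : ∃ c0 u0 : ℝ, 0 < c0 ∧ c0 < 1 / 2 ∧ 0 < u0 ∧ u0 < 1 / 2 ∧
    ∀ c u : ℝ, 0 < c → c ≤ c0 → 0 < u → u ≤ u0 →
    ∃ η0 : ℝ, 0 < η0 ∧ ∀ (η : ℝ) (K : ℕ), 0 < η → η ≤ η0 → u / 2 ≤ uu c η K 0 → uu c η K 0 ≤ u →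
    ∃ N0 : ℕ, ∀ N : ℕ, N0 ≤ N → ∀ θ D : ℝ, Far N θ D → (N : ℝ) ^ κ ≤ D → D ≤ N →
    pr (PP N) (fun T => δ * tg N < ‖SN N T θ - Mn N (yb N c η K) K θ T‖) ≤ D ^ (-(9 / 4) : ℝ) + (N : ℝ) ^ (-(2 : ℝ)) := by
  have hπ := Real.pi_pos
  obtain ⟨ε2, hε2⟩ : ∃ ε2 : ℝ, ε2 = δ ^ 2 / (4 * Real.pi ^ 2) := ⟨_, rfl⟩
  have hε20 : 0 < ε2 := by rw [hε2]; positivity
  obtain ⟨ε3, hε3⟩ : ∃ ε3 : ℝ, ε3 = ε2 / 8 := ⟨_, rfl⟩
  have hε30 : 0 < ε3 := by rw [hε3]; positivity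
  obtain ⟨ε', N1, hε', htop⟩ := top_small κ ε3 hκ hε30
  obtain ⟨C1, hC1, hsm⟩ := smooth_le
  obtain ⟨C2, hC2, hpb⟩ := pb_inv
  have hl2 : 0 < Real.log 2 := Real.log_pos (by norm_num)
  refine ⟨min (1 / 4) (ε3 / 2), min (1 / 4) ε3, by positivity, lt_of_le_of_lt (min_le_left _ _) (by norm_num),
    by positivity, lt_of_le_of_lt (min_le_left _ _) (by norm_num), ?_⟩
  intro c u hc hc0 hu hu0
  have hc4 : c ≤ 1 / 4 := hc0.trans (min_le_left _ _)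
  have hcε : c ≤ ε3 / 2 := hc0.trans (min_le_right _ _)
  have hu4 : u ≤ 1 / 4 := hu0.trans (min_le_left _ _)
  have huε : u ≤ ε3 := hu0.trans (min_le_right _ _)
  have hc1 : c < 1 := by linarith
  refine ⟨min 1 (ε3 * u / 8), by positivity, ?_⟩
  intro η K hη hη0 huK huK2
  have hη1 : η ≤ 1 := hη0.trans (min_le_left _ _)
  have hηε : η ≤ ε3 * u / 8 := hη0.trans (min_le_right _ _)
  obtain ⟨N2, hpar⟩ := par_large3 κ (min ε' (min c (u / 2))) hκ (by positivity)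
  obtain ⟨Λ, hΛ⟩ : ∃ Λ : ℝ, Λ = 4 + C1 / ε3 + (3 * Real.log 2 + |C2|) / (η * (u / 2)) +
    2 * (Real.log 2 + C2) / ε3 + 2 * (K + 2) / ε3 + 50 * Real.pi ^ 2 / (3 * δ ^ 2) + (K + 2) := ⟨_, rfl⟩
  have hΛp : 0 ≤ C1 / ε3 ∧ 0 ≤ (3 * Real.log 2 + |C2|) / (η * (u / 2)) ∧ 0 ≤ 2 * (Real.log 2 + C2) / ε3 ∧
      0 ≤ 2 * ((K : ℝ) + 2) / ε3 ∧ 0 ≤ 50 * Real.pi ^ 2 / (3 * δ ^ 2) ∧ (0 : ℝ) ≤ K + 2 := by
    refine ⟨by positivity, by positivity, by positivity, by positivity, by positivity, by positivity⟩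
  obtain ⟨p1, p2, p3, p4, p5, p6⟩ := hΛp
  refine ⟨max N1 (max N2 ⌈Real.exp Λ⌉₊), ?_⟩
  intro N hN θ D hF hκD hDN
  have hN1 : N1 ≤ N := le_trans (le_max_left _ _) hN
  have hN2 : N2 ≤ N := le_trans (le_trans (le_max_left _ _) (le_max_right _ _)) hN
  have hN3 : ⌈Real.exp Λ⌉₊ ≤ N := le_trans (le_trans (le_max_right _ _) (le_max_right _ _)) hN
  obtain ⟨B, z, k, w, I, η', hP, hzB, hBε, hL8, hI3⟩ := hpar N hN2 D hκD hDN
  have hD4 := hP.hD4
  have hN4 : (4 : ℝ) ≤ N := hD4.trans hDN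
  have hN0 : (0 : ℝ) < N := by linarith
  have hD0 : 0 < D := by linarith
  have hlΛ : Λ ≤ Real.log N := by
    rw [Real.le_log_iff_exp_le hN0]
    exact Nat.ceil_le.1 hN3
  have hlN4 : 4 ≤ Real.log N := by linarith
  have hlN0 : 0 < Real.log N := by linarith
  have q1 : C1 / ε3 ≤ Real.log N := by linarith
  have q2 : (3 * Real.log 2 + |C2|) / (η * (u / 2)) ≤ Real.log N := by linarith
  have q3 : 2 * (Real.log 2 + C2) / ε3 ≤ Real.log N := by linarith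
  have q4 : 2 * ((K : ℝ) + 2) / ε3 ≤ Real.log N := by linarith
  have q5 : 50 * Real.pi ^ 2 / (3 * δ ^ 2) ≤ Real.log N := by linarith
  have q6 : (K : ℝ) + 2 ≤ Real.log N := by linarith
  have hLL : LL N = 1 + Real.log N := rfl
  have hL3 : 3 ≤ LL N := by linarith
  have hL0 : 0 < LL N := by linarith
  have hNn : 1 ≤ N := by exact_mod_cast (by linarith : (1 : ℝ) ≤ N)
  have hN1r : (1 : ℝ) ≤ N := by linarith
  have hB36 := hP.hB36
  have hB2 : 2 ≤ B := by omega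
  have hB1r : (1 : ℝ) ≤ B := by exact_mod_cast (by omega : 1 ≤ B)
  have hB0r : (0 : ℝ) < B := by linarith
  have hBB : B * B ≤ N := by
    have h1 : (B : ℝ) ^ 2 ≤ N := (pow_le_pow_right₀ hB1r (by norm_num : 2 ≤ 8)).trans hP.hBN
    have h2 : ((B * B : ℕ) : ℝ) ≤ N := by
      push_cast
      rw [← sq]
      exact h1
    exact_mod_cast h2
  have hexp : (N : ℝ) ^ min ε' (min c (u / 2)) ≤ (N : ℝ) ^ ε' :=
    Real.rpow_le_rpow_of_exponent_le hN1r (min_le_left _ _)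
  have hexpc : (N : ℝ) ^ min ε' (min c (u / 2)) ≤ (N : ℝ) ^ c :=
    Real.rpow_le_rpow_of_exponent_le hN1r ((min_le_right _ _).trans (min_le_left _ _))
  have hexpu : (N : ℝ) ^ min ε' (min c (u / 2)) ≤ (N : ℝ) ^ (u / 2) :=
    Real.rpow_le_rpow_of_exponent_le hN1r ((min_le_right _ _).trans (min_le_right _ _))
  obtain ⟨n, hn1, hn2, hn3, hn4, hn5⟩ := exists_H0 hB2 hBB
  have hnL : (n : ℝ) ≤ 2 * LL N := by
    have h1 : (2 : ℝ) ^ n ≤ N := by exact_mod_cast hn5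
    have h2 := Real.log_le_log (by positivity) h1
    rw [Real.log_pow] at h2
    have h3 : (1 / 2 : ℝ) ≤ Real.log 2 := by
      have := Real.log_two_gt_d9
      linarith
    have h4 : (n : ℝ) * (1 / 2) ≤ n * Real.log 2 := by gcongr
    linarith
  have hH0N : B * 2 ^ n ≤ N := by
    have h1 : 2 * (B * 2 ^ n) ≤ B * (B * 2 ^ n) := Nat.mul_le_mul_right _ hB2
    omega
  have hH01 : 1 ≤ B * 2 ^ n := Nat.mul_pos (by omega) (by positivity)
  obtain ⟨y, hy⟩ : ∃ y : ℕ → ℕ, y = yb N c η K := ⟨_, rfl⟩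
  have hym : Monotone y := by rw [hy]; exact yb_mono5 hNn hc1 hη K
  have hBy : B ≤ y 0 := by
    rw [hy]
    unfold yb
    apply Nat.le_floor
    exact (hBε.trans hexpu).trans (Real.rpow_le_rpow_of_exponent_le hN1r huK)
  have hyH : y K < B * 2 ^ n := by
    have h1 : (y K : ℝ) ≤ (N : ℝ) ^ (1 - c) := by
      rw [hy]
      refine (yb_le5 N c η K K).trans (le_of_eq ?_)
      rw [uu_K5 hη]
    have h2 : (N : ℝ) ^ (1 - c) * (N : ℝ) ^ c = N := by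
      rw [← Real.rpow_add hN0]
      simp
    have h3 : (N : ℝ) < B * (B * 2 ^ n) := by exact_mod_cast hn2
    have h4 : (B : ℝ) ≤ (N : ℝ) ^ c := hBε.trans hexpc
    have h5 : (0 : ℝ) < (N : ℝ) ^ c := by positivity
    have h6 : (N : ℝ) ^ (1 - c) < B * 2 ^ n := by
      by_contra hcon
      rw [not_lt] at hcon
      have : (B : ℝ) * (B * 2 ^ n) ≤ (N : ℝ) ^ c * (N : ℝ) ^ (1 - c) := by gcongr
      linarith
    have h7 : (y K : ℝ) < ((B * 2 ^ n : ℕ) : ℝ) := by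
      push_cast
      linarith
    exact_mod_cast h7
  rw [← hy]
  have hyK1 : 1 ≤ y K := by rw [hy]; exact (yb_log5 hNn hc1 hη K K).1
  -- the sets
  obtain ⟨s, hs⟩ : ∃ s : ℕ → Finset ℕ, s = fun j => if j = K then (PP N).filter (fun p => B ≤ p ∧ p ≤ y 0) else
    if j = K + 1 then (PP N).filter (fun p => y K < p ∧ p < B * 2 ^ n) else Pb (y j) (y (j + 1)) := ⟨_, rfl⟩
  obtain ⟨A, hA⟩ : ∃ A : ℕ → Finset ℕ, A = fun j => if j = K then Icc 1 N else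
    if j = K + 1 then Icc 1 N else Icc 1 N \ Sy N (y j) := ⟨_, rfl⟩
  have hyKN : y K ≤ N := by omega
  have hsp : ∀ j ∈ range (K + 2), ∀ p ∈ s j, p.Prime ∧ B ≤ p ∧ p < B * 2 ^ n := by
    intro j hj p hp
    rw [mem_range] at hj
    rw [hs] at hp
    simp only at hp
    have h0K : y 0 ≤ y K := hym (Nat.zero_le K)
    split_ifs at hp with h1 h2
    · rw [mem_filter, mem_PP] at hp
      exact ⟨hp.1.1, hp.2.1, by omega⟩
    · rw [mem_filter, mem_PP] at hp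
      exact ⟨hp.1.1, by omega, hp.2.2⟩
    · unfold Pb at hp
      rw [mem_filter, mem_Ioc] at hp
      have h3 : y 0 ≤ y j := hym (Nat.zero_le j)
      have h4 : y (j + 1) ≤ y K := hym (by omega)
      exact ⟨hp.2, by omega, by omega⟩
  have hbad : pr (PP N) (fun T => ∃ j ∈ range (K + 2), ∑ p ∈ s j, ((MG N (A j) p).card : ℝ) + 2 * N / LL N <
      ∑ p ∈ s j, ‖XG N (A j) θ p T‖ ^ 2) ≤ ((K + 2 : ℕ) : ℝ) * (1 / (3 * (B : ℝ) * D ^ 4)) := by
    refine (pr_exists (PP N) (range (K + 2)) _).trans ?_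
    have h1 : ∀ j ∈ range (K + 2), pr (PP N) (fun T => ∑ p ∈ s j, ((MG N (A j) p).card : ℝ) + 2 * N / LL N <
      ∑ p ∈ s j, ‖XG N (A j) θ p T‖ ^ 2) ≤ 1 / (3 * (B : ℝ) * D ^ 4) := fun j hj =>
      V_set5 hF hP hL8 hL3 hI3 hnL hn4 (A j) (s j) (hsp j hj)
    refine (sum_le_sum h1).trans (le_of_eq ?_)
    rw [sum_const, card_range, nsmul_eq_mul]
  have hsplit := point_split N θ D hF B z k w I η' hP
  have haz := azuma (κ := Unit) (PP N) {()} (fun p _ T => if B ≤ p then vr N y K θ p T else 0)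
    (fun p _ _ _ => by
      intro T
      by_cases h : B ≤ p
      · simp only [if_pos h]
        exact vr_pred N y K θ p T
      · simp only [if_neg h]) (3 * Real.log N) (ε2 * N) (by positivity) (by positivity)
  -- the means
  have hmlow : ∑ p ∈ (PP N).filter (fun p => B ≤ p ∧ p ≤ y 0), ((MG N (Icc 1 N) p).card : ℝ) ≤ 2 * ε3 * N := by
    refine (sum_low5 N B (y 0)).trans ?_
    have h0 := yb_log5 hNn hc1 hη K 0
    rw [← hy] at h0
    have h1 := hsm N (y 0) (by omega) h0.1 ((hym (Nat.zero_le K)).trans hyKN)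
    refine h1.trans ?_
    have h2 : Real.log (y 0) / Real.log N ≤ ε3 := by
      rw [div_le_iff₀ hlN0]
      exact aux1 h0.2.2 (huK2.trans huε) hlN0.le
    have h3 : C1 * N / Real.log N ≤ ε3 * N := by
      rw [div_le_iff₀ hlN0]
      rw [div_le_iff₀ hε30] at q1
      exact aux2 q1 hN0.le
    have h4 : 6 / Real.pi ^ 2 ≤ 1 := pi6
    have h5 : 0 ≤ Real.log (y 0) / Real.log N := div_nonneg (Real.log_natCast_nonneg _) hlN0.le
    have h6 : 6 / Real.pi ^ 2 * N * (Real.log (y 0) / Real.log N) ≤ 1 * N * ε3 := by gcongr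
    linarith
  have hmblk : ∀ b ∈ range K, ∑ p ∈ Pb (y b) (y (b + 1)), ((MG N (Icc 1 N \ Sy N (y b)) p).card : ℝ) ≤
      N * (2 * η) ^ 2 := by
    intro b _
    refine (sum_block5 N (y b) (y (b + 1))).trans ?_
    have h1 : ∑ p ∈ Pb (y b) (y (b + 1)), (1 : ℝ) / p ≤ 2 * η := by
      rw [hy]
      refine block_inv5 hpb hNn hc1 hη hη1 huK ?_
      rw [div_le_iff₀ (by positivity)] at q2
      linarith
    have h2 : 0 ≤ ∑ p ∈ Pb (y b) (y (b + 1)), (1 : ℝ) / p := sum_nonneg fun p _ => by positivity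
    gcongr
  have hmhigh : ∑ p ∈ (PP N).filter (fun p => y K < p ∧ p < B * 2 ^ n), ((MG N (Icc 1 N) p).card : ℝ) ≤ 2 * ε3 * N := by
    have h0 := yb_log5 hNn hc1 hη K K
    rw [uu_K5 hη, ← hy] at h0
    have h1 : ∑ p ∈ (PP N).filter (fun p => y K < p ∧ p < B * 2 ^ n), ((MG N (Icc 1 N) p).card : ℝ) ≤
        N * ∑ p ∈ Pb (y K) N, (1 : ℝ) / p := by
      rw [mul_sum]
      refine (sum_le_sum fun p _ => card_MG5 N (Icc 1 N) p).trans ?_
      apply sum_le_sum_of_subset_of_nonneg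
      · intro p hp
        rw [mem_filter, mem_PP] at hp
        unfold Pb
        rw [mem_filter, mem_Ioc]
        exact ⟨⟨hp.2.1, hp.1.2⟩, hp.1.1⟩
      · intro p _ _
        positivity
    have hlyK : 1 / 2 * Real.log N ≤ Real.log (y K) := aux5 hc4 hlN4 h0.2.1
    have hlyK0 : 0 < Real.log (y K) := by linarith
    have hyK2 : 2 ≤ y K := by
      by_contra hcon
      have h5 : y K = 1 := by omega
      rw [h5, Nat.cast_one, Real.log_one] at hlyK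
      linarith
    have hyK0 : (0 : ℝ) < y K := by exact_mod_cast hyK1
    have h2 := hpb (y K) N hyK2 hyKN
    have h3 : (Real.log ((N : ℝ) / y K) + C2) / Real.log (y K) ≤ 2 * ε3 := by
      rw [div_le_iff₀ hlyK0, Real.log_div hN0.ne' hyK0.ne']
      have e1 : Real.log N - Real.log (y K) ≤ c * Real.log N + Real.log 2 := by linarith [h0.2.1]
      have e2 : Real.log 2 + C2 ≤ ε3 / 2 * Real.log N := by
        rw [div_le_iff₀ hε30] at q3
        linarith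
      have e3 : c * Real.log N ≤ ε3 / 2 * Real.log N := by gcongr
      exact aux6 e1 e2 e3 hlyK hε30
    calc _ ≤ (N : ℝ) * ∑ p ∈ Pb (y K) N, (1 : ℝ) / p := h1
      _ ≤ N * (2 * ε3) := by
        have := h2.trans h3
        gcongr
      _ = 2 * ε3 * N := by ring
  have herr : ((K : ℝ) + 2) * (2 * N / LL N) ≤ ε3 * N := by
    rw [← mul_div_assoc, div_le_iff₀ hL0]
    rw [div_le_iff₀ hε30] at q4
    have e1 : 2 * ((K : ℝ) + 2) ≤ ε3 * LL N := by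
      rw [hLL]
      exact aux7 q4 hε30
    calc ((K : ℝ) + 2) * (2 * N) = (2 * ((K : ℝ) + 2)) * N := by ring
      _ ≤ (ε3 * LL N) * N := mul_le_mul_of_nonneg_right e1 hN0.le
      _ = ε3 * N * LL N := by ring
  have hvar : ∀ T ⊆ PP N, ¬ (∃ j ∈ range (K + 2), ∑ p ∈ s j, ((MG N (A j) p).card : ℝ) + 2 * N / LL N <
      ∑ p ∈ s j, ‖XG N (A j) θ p T‖ ^ 2) →
      ∑ p ∈ PP N, ∑ i ∈ ({()} : Finset Unit), ‖(if B ≤ p then vr N y K θ p T else 0 : ℂ)‖ ^ 2 ≤ ε2 * N := by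
    intro T _ hno
    push Not at hno
    simp only [sum_singleton]
    rw [var_four5 hym hBy hyH hH0N]
    have g1 : ∑ p ∈ (PP N).filter (fun p => B ≤ p ∧ p ≤ y 0), ‖XG N (Icc 1 N) θ p T‖ ^ 2 ≤
        2 * ε3 * N + 2 * N / LL N := by
      have := hno K (mem_range.2 (by omega))
      rw [hs, hA] at this
      simp only [if_true] at this
      linarith
    have g2 : ∑ b ∈ range K, ∑ p ∈ Pb (y b) (y (b + 1)), ‖XG N (Icc 1 N \ Sy N (y b)) θ p T‖ ^ 2 ≤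
        ∑ b ∈ range K, ((N : ℝ) * (2 * η) ^ 2 + 2 * N / LL N) := by
      refine sum_le_sum fun b hb => ?_
      have hb' := mem_range.1 hb
      have := hno b (mem_range.2 (by omega))
      rw [hs, hA] at this
      simp only [if_neg (by omega : ¬ b = K), if_neg (by omega : ¬ b = K + 1)] at this
      have := hmblk b hb
      linarith
    rw [sum_const, card_range, nsmul_eq_mul] at g2
    have g3 : ∑ p ∈ (PP N).filter (fun p => y K < p ∧ p < B * 2 ^ n), ‖XG N (Icc 1 N) θ p T‖ ^ 2 ≤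
        2 * ε3 * N + 2 * N / LL N := by
      have := hno (K + 1) (mem_range.2 (by omega))
      rw [hs, hA] at this
      simp only [if_neg (by omega : ¬ K + 1 = K), if_true] at this
      linarith
    have g4 := htop N hN1 θ D hF hκD hDN B (B * 2 ^ n) (by omega) hP.hBD (hBε.trans hexp) hH01 hn2 hH0N T
    have g5 : (K : ℝ) * (N * (2 * η) ^ 2) ≤ ε3 * N := by
      have e1 := K_eta5 hc hu hη huK
      have e2 : (K : ℝ) * (N * (2 * η) ^ 2) = 4 * N * (K * η) * η := by ring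
      rw [e2]
      calc 4 * (N : ℝ) * (K * η) * η ≤ 4 * N * (2 / u) * (ε3 * u / 8) := by gcongr
        _ = ε3 * N := by
          field_simp
          ring
    have g6 : (K : ℝ) * ((N : ℝ) * (2 * η) ^ 2 + 2 * N / LL N) + 2 * (2 * N / LL N) ≤ 2 * ε3 * N := by
      calc (K : ℝ) * ((N : ℝ) * (2 * η) ^ 2 + 2 * N / LL N) + 2 * (2 * N / LL N) =
            (K : ℝ) * (N * (2 * η) ^ 2) + ((K : ℝ) + 2) * (2 * N / LL N) := by ring
        _ ≤ 2 * ε3 * N := by linarith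
    have g7 : ε2 = 8 * ε3 := by rw [hε3]; ring
    rw [g7]
    have g8 : 0 ≤ ε3 * N := by positivity
    linarith
  -- the conclusion
  have hdet : ∀ T ⊆ PP N, δ * tg N < ‖SN N T θ - Mn N y K θ T‖ →
      ((5 * Real.sqrt N < ‖SN N T θ - ∑ l ∈ LI N B z 1, (rf T l : ℂ) * XX N θ l T‖) ∨
      (∃ j ∈ range (K + 2), ∑ p ∈ s j, ((MG N (A j) p).card : ℝ) + 2 * N / LL N <
        ∑ p ∈ s j, ‖XG N (A j) θ p T‖ ^ 2)) ∨
      (2 * (3 * Real.log N) * (ε2 * N) < ∑ i ∈ ({()} : Finset Unit),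
        ‖∑ p ∈ PP N, (sg T p : ℂ) * (if B ≤ p then vr N y K θ p T else 0)‖ ^ 2 ∧
        ∑ p ∈ PP N, ∑ i ∈ ({()} : Finset Unit), ‖(if B ≤ p then vr N y K θ p T else 0 : ℂ)‖ ^ 2 ≤ ε2 * N) := by
    intro T hT hlt
    by_contra hcon
    rw [not_or, not_or] at hcon
    obtain ⟨⟨hc1', hc2'⟩, hc3'⟩ := hcon
    rw [not_lt] at hc1'
    have hv := hvar T hT hc2'
    rw [not_and'] at hc3'
    have h1 := hc3' hv
    rw [not_lt, sum_singleton, ← S1_sub_Mn5 hym hB2 hzB hBy hyH hH0N] at h1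
    obtain ⟨W, hW⟩ : ∃ W : ℂ, W = ∑ l ∈ LI N B z 1, (rf T l : ℂ) * XX N θ l T - Mn N y K θ T := ⟨_, rfl⟩
    rw [← hW] at h1
    have h2 : ‖SN N T θ - Mn N y K θ T‖ ≤ 5 * Real.sqrt N + ‖W‖ := by
      have : SN N T θ - Mn N y K θ T = (SN N T θ - ∑ l ∈ LI N B z 1, (rf T l : ℂ) * XX N θ l T) + W := by
        rw [hW]
        ring
      rw [this]
      exact (norm_add_le _ _).trans (by linarith)
    have htg : 0 ≤ tg N := Real.sqrt_nonneg _
    have htg2 : tg N ^ 2 = 6 / Real.pi ^ 2 * (N * Real.log N) := Real.sq_sqrt (by positivity)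
    have h3 : ‖W‖ ≤ δ / 2 * tg N := by
      apply le_of_sq_le_sq _ (by positivity)
      rw [mul_pow, htg2]
      refine h1.trans (le_of_eq ?_)
      rw [hε2]
      field_simp
      ring
    have h4 : 5 * Real.sqrt N ≤ δ / 2 * tg N := by
      apply le_of_sq_le_sq _ (by positivity)
      rw [mul_pow, mul_pow, htg2, Real.sq_sqrt hN0.le]
      rw [div_le_iff₀ (by positivity)] at q5
      have e1 : (δ / 2) ^ 2 * (6 / Real.pi ^ 2 * (N * Real.log N)) = N * ((3 * δ ^ 2 * Real.log N) / (2 * Real.pi ^ 2)) := by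
        field_simp
        ring
      rw [e1]
      have e2 : (25 : ℝ) ≤ (3 * δ ^ 2 * Real.log N) / (2 * Real.pi ^ 2) := by
        rw [le_div_iff₀ (by positivity)]
        linarith
      calc (5 : ℝ) ^ 2 * N = N * 25 := by ring
        _ ≤ _ := mul_le_mul_of_nonneg_left e2 hN0.le
    linarith
  refine (pr_le_add hdet).trans ?_
  have h1 := pr_or (PP N) (fun T => 5 * Real.sqrt N < ‖SN N T θ - ∑ l ∈ LI N B z 1, (rf T l : ℂ) * XX N θ l T‖)
    (fun T => ∃ j ∈ range (K + 2), ∑ p ∈ s j, ((MG N (A j) p).card : ℝ) + 2 * N / LL N <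
        ∑ p ∈ s j, ‖XG N (A j) θ p T‖ ^ 2)
  refine le_trans ?_ (prob5 hD4 hL3 hL8 hP.hBD hP.hIL (by linarith : (K : ℝ) + 2 ≤ LL N) (by linarith : (2 : ℝ) ≤ N))
  refine add_le_add (h1.trans (add_le_add hsplit hbad)) ?_
  exact haz

end Pool.Agent.Helper51.EA
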