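import Pool.Agent.Helper5.EA.Up
import Pool.Agent.Helper33.EA.T1
import Pool.Agent.Helper1.EA.T2
import Pool.Agent.Helper85.EA.T3
import Pool.Agent.Helper96.EA.T5
import Pool.Agent.Helper16.EA.T4

/-!
# Project EA, part 2: the upper bound, assembled from the blocks
-/

set_option autoImplicit false

namespace Pool.Agent.Helper51.EA

open Finset Pool.Agent.Helper5.RM Pool.Agent.Helper5.RS MeasureTheory ProbabilityTheory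

/-- T1 -/
theorem point_sharpR (κ δ r : ℝ) (hκ : 0 < κ) (hδ : 0 < δ) (hr0 : 0 < r) (hr1 : r ≤ 1) : ∃ N0 : ℕ, ∀ N : ℕ, N0 ≤ N →
    ∀ θ D : ℝ, Far N θ D → (N : ℝ) ^ κ ≤ D → D ≤ N →
    pr (PP N) (fun T => r * (1 + δ) * tg N < ‖SN N T θ‖) ≤ D ^ (-(9 / 4) : ℝ) + (N : ℝ) ^ (-(r ^ 2 * (1 + δ))) :=
  point_sharpR_of v_sharp point_split az_dir κ δ r hκ hδ hr0 hr1

/-- T2 -/
theorem far_bR (κ δ r : ℝ) (hκ : 0 < κ) (hδ : 0 < δ) (hr0 : 0 < r) (hr1 : r ≤ 1) : ∃ i0 : ℕ, ∀ i : ℕ, i0 ≤ i → ∀ a : ℕ,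
    2 ^ i ≤ a → a < 2 * 2 ^ i → ∀ x D : ℝ, Far (2 ^ a) x D → ((2 : ℝ) ^ a) ^ κ ≤ D → D ≤ 2 ^ a →
    pr (PP (2 ^ (2 * 2 ^ i))) (fun T => ∃ N : ℕ, 2 ^ a ≤ N ∧ N ≤ 2 ^ (a + 1) ∧
      r * (1 + δ) * tg N < ‖SN N T x‖) ≤ 4 * D ^ (-(17 / 8) : ℝ) + ((2 : ℝ) ^ a) ^ (-(r ^ 2 * (1 + δ / 4))) :=
  far_bR_of point_sharpR κ δ r hκ hδ hr0 hr1

/-- T3 -/
theorem unifR (δ r : ℝ) (hδ : 0 < δ) (hr0 : 0 < r) (hr1 : r ≤ 1) (ρ : ℕ) : ∃ (c : ℝ) (i0 : ℕ), 0 < c ∧ ∀ i : ℕ, i0 ≤ i →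
    pr (PP (2 ^ (2 * 2 ^ i))) (fun T => ∃ a : ℕ, 2 ^ i ≤ a ∧ a < 2 * 2 ^ i ∧
      ((2 : ℝ) ^ a) ^ (1 - r ^ 2 + δ) < (cnt (2 ^ (a + ρ)) (fun x => ∃ N : ℕ, 2 ^ a ≤ N ∧ N ≤ 2 ^ (a + 1) ∧
        r * (1 + δ) * tg N < ‖SN N T x‖) : ℝ)) ≤ ((2 : ℝ) ^ i) ^ (-c) :=
  unifR_of far_bR δ r hδ hr0 hr1 ρ

/-- T5 -/
theorem thick_upper {Ω : Type*} [MeasurableSpace Ω] (μ : Measure Ω) [IsProbabilityMeasure μ]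
    (ε : Nat.Primes → Ω → ℝ) (hm : ∀ p, Measurable (ε p)) (hi : iIndepFun ε μ)
    (h2 : ∀ p, μ {ω | ε p ω = -1} = 1 / 2) (h1 : ∀ p, μ {ω | ε p ω = 1} = 1 / 2) (δ r : ℝ) (hδ : 0 < δ) (hr0 : 0 < r)
    (hr1 : r ≤ 1) :
    ∀ᵐ ω ∂μ, ∃ N0 : ℕ, ∀ N : ℕ, N0 ≤ N → (volume {x : ℝ | x ∈ Set.Ico (0 : ℝ) 1 ∧
      r * (1 + δ) * tg N ≤ ‖∑ n ∈ Finset.Icc 1 N, (rs (ext ε) ω n : ℂ) * e (n * x)‖}).toReal ≤ (N : ℝ) ^ (-(r ^ 2) + δ) :=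
  thick_upper_of unifR slow μ ε hm hi h2 h1 (fun d hd => upper_as μ ε hm hi h2 h1 d hd) δ r hδ hr0 hr1

end Pool.Agent.Helper51.EA
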