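import Pool.Agent.Helper5.EA.Basic
import Pool.Agent.Helper54.EA.A2
import Pool.Agent.Helper85.EA.A3F
import Pool.Agent.Helper53.EA.A4
import Pool.Agent.Helper99.EA.B5
import Pool.Agent.Helper1.EA.B6

/-!
# Project EA, block B7: the conditional variance at one far point, sharp constant
-/

set_option autoImplicit false

namespace Pool.Agent.Helper51.EA

open Finset Pool.Agent.Helper5.RM Pool.Agent.Helper5.RS

/-- finitely many pieces, minus sign -/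
lemma pieces_minus {N : ℕ} {θ D : ℝ} (hF : Far N θ D) {B z k w I : ℕ} {η : ℝ} (hP : Par N D B z k w I η)
    (hL8 : LL N ^ 8 ≤ B) (hL3 : 3 ≤ LL N) (hI : 3 ≤ I) {ι : Type*} (J : Finset ι) (H : ι → ℕ) (A P : ι → Finset ℕ)
    (hH1 : ∀ j ∈ J, B ≤ H j) (hH2 : ∀ j ∈ J, B * H j ≤ N) (hPp : ∀ j ∈ J, ∀ p ∈ P j, p.Prime ∧ H j ≤ p ∧ p < 2 * H j) :
    pr (PP N) (fun T => ∃ j ∈ J, (N : ℝ) / LL N ^ 2 <
      |∑ p ∈ P j, ‖XG N (A j) θ p T‖ ^ 2 - ∑ p ∈ P j, ((MG N (A j) p).card : ℝ)|) ≤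
      J.card * (1 / (6 * (B : ℝ) * LL N * D ^ 4)) := by
  have hN0 : (0 : ℝ) < N := by
    have := hP.hD4
    have := hP.hDN
    linarith
  have hB1 : (1 : ℝ) ≤ B := by
    have := hP.hB36
    exact_mod_cast (by omega : 1 ≤ B)
  have hBD : (B : ℝ) ≤ D := by
    refine le_trans ?_ hP.hBD
    calc (B : ℝ) = B ^ 1 := (pow_one _).symm
      _ ≤ (B : ℝ) ^ 4 := pow_le_pow_right₀ hB1 (by norm_num)
  refine (pr_exists (PP N) J _).trans ?_
  rw [← nsmul_eq_mul]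
  refine Finset.sum_le_card_nsmul _ _ _ fun j hj => ?_
  refine (fl_minus N θ D hP.hD4 hP.hDN hF k w η hP.hk hP.hη0 hP.hη1 hP.hw B (H j) hP.hBL hBD (hH1 j hj) (hH2 j hj)
    (A j) (P j) (hPp j hj) ((N : ℝ) / LL N ^ 2) (by positivity)).trans ?_
  exact par_piece hP hL8 hL3 hI

/-- finitely many pieces, plus sign -/
lemma pieces_plus {N : ℕ} {θ D : ℝ} (hF : Far N θ D) {B z k w I : ℕ} {η : ℝ} (hP : Par N D B z k w I η)
    (hL8 : LL N ^ 8 ≤ B) (hL3 : 3 ≤ LL N) (hI : 3 ≤ I) {ι : Type*} (J : Finset ι) (H : ι → ℕ) (A P : ι → Finset ℕ)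
    (hH1 : ∀ j ∈ J, B ≤ H j) (hH2 : ∀ j ∈ J, B * H j ≤ N) (hPp : ∀ j ∈ J, ∀ p ∈ P j, p.Prime ∧ H j ≤ p ∧ p < 2 * H j) :
    pr (PP N) (fun T => ∃ j ∈ J, (N : ℝ) / LL N ^ 2 < ‖∑ p ∈ P j, XG N (A j) θ p T ^ 2‖) ≤
      J.card * (1 / (6 * (B : ℝ) * LL N * D ^ 4)) := by
  have hN0 : (0 : ℝ) < N := by
    have := hP.hD4
    have := hP.hDN
    linarith
  have hB1 : (1 : ℝ) ≤ B := by
    have := hP.hB36
    exact_mod_cast (by omega : 1 ≤ B)
  have hBD : (B : ℝ) ≤ D := by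
    refine le_trans ?_ hP.hBD
    calc (B : ℝ) = B ^ 1 := (pow_one _).symm
      _ ≤ (B : ℝ) ^ 4 := pow_le_pow_right₀ hB1 (by norm_num)
  refine (pr_exists (PP N) J _).trans ?_
  rw [← nsmul_eq_mul]
  refine Finset.sum_le_card_nsmul _ _ _ fun j hj => ?_
  refine (fl_plus N θ D hP.hD4 hP.hDN hF k w η hP.hk hP.hη0 hP.hη1 hP.hw B (H j) hP.hBL hBD (hH1 j hj) (hH2 j hj)
    (A j) (P j) (hPp j hj) ((N : ℝ) / LL N ^ 2) (by positivity)).trans ?_
  exact par_piece hP hL8 hL3 hI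

/-- the large primes contribute little if `B ≤ N^ε'` -/
lemma top_small (κ ε : ℝ) (hκ : 0 < κ) (hε : 0 < ε) : ∃ (ε' : ℝ) (N0 : ℕ), 0 < ε' ∧ ∀ N : ℕ, N0 ≤ N → ∀ θ D : ℝ,
    Far N θ D → (N : ℝ) ^ κ ≤ D → D ≤ N → ∀ B H0 : ℕ, 1 ≤ B → (B : ℝ) ^ 4 ≤ D → (B : ℝ) ≤ (N : ℝ) ^ ε' → 1 ≤ H0 →
    N < B * H0 → H0 ≤ N → ∀ T : Finset ℕ,
    ∑ p ∈ (PP N).filter (fun p => H0 ≤ p), ‖XX N θ p T‖ ^ 2 ≤ ε * N := by
  obtain ⟨C, hC, B1, htop⟩ := top_sum
  refine ⟨ε * κ / (16 * C), max (⌈Real.exp (16 * C / (κ * ε))⌉₊) (max (⌈Real.exp (8 * Real.log 2 / κ)⌉₊)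
    (max (⌈((B1 : ℝ) + 1) ^ (4 / κ)⌉₊) 3)), by positivity, ?_⟩
  intro N hN θ D hF hκD hDN B H0 hB1 hBD hBε hH0 hNB hHN T
  have hN1 : ⌈Real.exp (16 * C / (κ * ε))⌉₊ ≤ N := le_trans (le_max_left _ _) hN
  have hN2 : ⌈Real.exp (8 * Real.log 2 / κ)⌉₊ ≤ N := le_trans (le_trans (le_max_left _ _) (le_max_right _ _)) hN
  have hN3 : ⌈((B1 : ℝ) + 1) ^ (4 / κ)⌉₊ ≤ N :=
    le_trans (le_trans (le_trans (le_max_left _ _) (le_max_right _ _)) (le_max_right _ _)) hN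
  have hN4 : 3 ≤ N := le_trans (le_trans (le_trans (le_max_right _ _) (le_max_right _ _)) (le_max_right _ _)) hN
  have hNr : (3 : ℝ) ≤ N := by exact_mod_cast hN4
  have hN0 : (0 : ℝ) < N := by linarith
  have hD0 : 0 < D := lt_of_lt_of_le (by positivity) hκD
  have hlN : 16 * C / (κ * ε) ≤ Real.log N := by
    rw [Real.le_log_iff_exp_le hN0]
    exact Nat.ceil_le.1 hN1
  have hlN2 : 8 * Real.log 2 / κ ≤ Real.log N := by
    rw [Real.le_log_iff_exp_le hN0]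
    exact Nat.ceil_le.1 hN2
  have hlN0 : 0 < Real.log N := Real.log_pos (by linarith)
  have hB1D : (B1 : ℝ) + 1 ≤ D ^ (1 / 4 : ℝ) := by
    have h1 : ((B1 : ℝ) + 1) ^ (4 / κ) ≤ N := Nat.ceil_le.1 hN3
    calc (B1 : ℝ) + 1 = (((B1 : ℝ) + 1) ^ (4 / κ)) ^ (κ / 4) := by
          rw [← Real.rpow_mul (by positivity)]
          rw [show 4 / κ * (κ / 4) = 1 by field_simp, Real.rpow_one]
      _ ≤ (N : ℝ) ^ (κ / 4) := Real.rpow_le_rpow (by positivity) h1 (by positivity)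
      _ = ((N : ℝ) ^ κ) ^ (1 / 4 : ℝ) := by
          rw [← Real.rpow_mul hN0.le]
          congr 1
          ring
      _ ≤ D ^ (1 / 4 : ℝ) := Real.rpow_le_rpow (by positivity) hκD (by norm_num)
  obtain ⟨B', hB'⟩ : ∃ B' : ℕ, B' = ⌊D ^ (1 / 4 : ℝ)⌋₊ := ⟨_, rfl⟩
  have hDq0 : 0 ≤ D ^ (1 / 4 : ℝ) := by positivity
  have hB'1 : B1 ≤ B' := by
    rw [hB']
    exact Nat.le_floor (by linarith)
  have hB'D : (B' : ℝ) ≤ D ^ (1 / 4 : ℝ) := by
    rw [hB']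
    exact Nat.floor_le hDq0
  have hD4 : (D ^ (1 / 4 : ℝ)) ^ 4 = D := by
    rw [← Real.rpow_natCast, ← Real.rpow_mul hD0.le]
    norm_num
  have hB'4 : (B' : ℝ) ^ 4 ≤ D := by
    calc (B' : ℝ) ^ 4 ≤ (D ^ (1 / 4 : ℝ)) ^ 4 := pow_le_pow_left₀ (Nat.cast_nonneg _) hB'D 4
      _ = D := hD4
  have hBB' : B ≤ B' := by
    rw [hB']
    apply Nat.le_floor
    have h1 : (B : ℝ) = ((B : ℝ) ^ 4) ^ (1 / 4 : ℝ) := by
      rw [← Real.rpow_natCast, ← Real.rpow_mul (Nat.cast_nonneg _)]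
      norm_num
    rw [h1]
    exact Real.rpow_le_rpow (by positivity) hBD (by norm_num)
  have hlB' : κ / 8 * Real.log N ≤ Real.log B' := by
    have h1 : D ^ (1 / 4 : ℝ) < B' + 1 := by
      rw [hB']
      exact Nat.lt_floor_add_one _
    have hB'0 : (1 : ℝ) ≤ B' := by
      have : 1 ≤ B' := hB1.trans hBB'
      exact_mod_cast this
    have h2 : D ^ (1 / 4 : ℝ) ≤ 2 * B' := by linarith
    have h3 := Real.log_le_log (by positivity) h2
    rw [Real.log_rpow hD0, Real.log_mul (by norm_num) (by positivity)] at h3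
    have h4 : κ * Real.log N ≤ Real.log D := by
      rw [← Real.log_rpow hN0]
      exact Real.log_le_log (by positivity) hκD
    have h5 : Real.log 2 ≤ κ / 8 * Real.log N := by
      rw [div_le_iff₀ hκ] at hlN2
      linarith
    linarith
  have hlB'0 : 0 < Real.log B' := lt_of_lt_of_le (by positivity) hlB'
  have hH0r : (0 : ℝ) < H0 := by exact_mod_cast hH0
  have hNBr : (N : ℝ) ≤ B * H0 := by exact_mod_cast hNB.le
  have h1 := htop N B' H0 θ D hF hDN hB'1 hB'4 hH0 (lt_of_lt_of_le hNB (Nat.mul_le_mul_right _ hBB')) hHN T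
  refine h1.trans ?_
  have hB0 : (0 : ℝ) < B := by exact_mod_cast hB1
  have h2 : Real.log ((N : ℝ) / H0) ≤ ε * κ / (16 * C) * Real.log N := by
    calc Real.log ((N : ℝ) / H0) ≤ Real.log B := by
          apply Real.log_le_log (by positivity)
          rw [div_le_iff₀ hH0r]
          exact hNBr
      _ ≤ Real.log ((N : ℝ) ^ (ε * κ / (16 * C))) := Real.log_le_log hB0 hBε
      _ = _ := Real.log_rpow hN0 _
  rw [div_le_iff₀ hlB'0]
  have h3 : C * (1 + Real.log ((N : ℝ) / H0)) ≤ ε * (κ / 8 * Real.log N) := by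
    have e1 : C * (1 + Real.log ((N : ℝ) / H0)) ≤ C * (1 + ε * κ / (16 * C) * Real.log N) := by gcongr
    have e2 : C * (1 + ε * κ / (16 * C) * Real.log N) = C + ε * κ / 16 * Real.log N := by
      field_simp
    have e3 : C ≤ ε * κ / 16 * Real.log N := by
      rw [div_le_iff₀ (by positivity)] at hlN
      linarith
    linarith
  calc C * N * (1 + Real.log ((N : ℝ) / H0)) = (C * (1 + Real.log ((N : ℝ) / H0))) * N := by ring
    _ ≤ (ε * (κ / 8 * Real.log N)) * N := by gcongr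
    _ ≤ (ε * Real.log B') * N := by gcongr
    _ = ε * N * Real.log B' := by ring

/-- B7. -/
theorem v_sharp (κ ε : ℝ) (hκ : 0 < κ) (hε : 0 < ε) : ∃ N0 : ℕ, ∀ N : ℕ, N0 ≤ N → ∀ θ D : ℝ, Far N θ D →
    (N : ℝ) ^ κ ≤ D → D ≤ N → ∃ (B z k w I : ℕ) (η : ℝ), Par N D B z k w I η ∧
    pr (PP N) (fun T => (3 / Real.pi ^ 2 + ε) * N <
      (∑ l ∈ LI N B z 1, ‖XX N θ l T‖ ^ 2 + ‖∑ l ∈ LI N B z 1, XX N θ l T ^ 2‖) / 2) ≤ 2 / D ^ 4 := by
  obtain ⟨ε', N1, hε', htop⟩ := top_small κ (ε / 4) hκ (by positivity)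
  obtain ⟨N2, hpar⟩ := par_large3 κ ε' hκ hε'
  obtain ⟨C, hC, hsqf⟩ := sqf_count
  refine ⟨max N1 (max N2 (max ⌈Real.exp 2⌉₊ (max ⌈Real.exp (8 / ε)⌉₊ ⌈(4 * C / ε) ^ 2⌉₊))), ?_⟩
  intro N hN θ D hF hκD hDN
  have hN1 : N1 ≤ N := le_trans (le_max_left _ _) hN
  have hN2 : N2 ≤ N := le_trans (le_trans (le_max_left _ _) (le_max_right _ _)) hN
  have hN3 : ⌈Real.exp 2⌉₊ ≤ N := le_trans (le_trans (le_trans (le_max_left _ _) (le_max_right _ _)) (le_max_right _ _)) hN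
  have hN4 : ⌈Real.exp (8 / ε)⌉₊ ≤ N := le_trans (le_trans (le_trans (le_trans (le_max_left _ _) (le_max_right _ _))
    (le_max_right _ _)) (le_max_right _ _)) hN
  have hN5 : ⌈(4 * C / ε) ^ 2⌉₊ ≤ N := le_trans (le_trans (le_trans (le_trans (le_max_right _ _) (le_max_right _ _))
    (le_max_right _ _)) (le_max_right _ _)) hN
  obtain ⟨B, z, k, w, I, η, hP, hzB, hBε, hL8, hI⟩ := hpar N hN2 D hκD hDN
  refine ⟨B, z, k, w, I, η, hP, ?_⟩
  have hN0 : (0 : ℝ) < N := by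
    have := hP.hD4
    linarith
  have hD0 : 0 < D := by
    have := hP.hD4
    linarith
  have hlN : 2 ≤ Real.log N := by
    rw [Real.le_log_iff_exp_le hN0]
    exact Nat.ceil_le.1 hN3
  have hlN2 : 8 / ε ≤ Real.log N := by
    rw [Real.le_log_iff_exp_le hN0]
    exact Nat.ceil_le.1 hN4
  have hLL : LL N = 1 + Real.log N := rfl
  have hL3 : 3 ≤ LL N := by linarith
  have hL0 : 0 < LL N := by linarith
  have hB2 : 2 ≤ B := by have := hP.hB36; omega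
  have hB1r : (1 : ℝ) ≤ B := by exact_mod_cast (by omega : 1 ≤ B)
  have hBB : B * B ≤ N := by
    have h1 : (B : ℝ) ^ 2 ≤ N := (pow_le_pow_right₀ hB1r (by norm_num : 2 ≤ 8)).trans hP.hBN
    have h2 : ((B * B : ℕ) : ℝ) ≤ N := by
      push_cast
      nlinarith
    exact_mod_cast h2
  obtain ⟨n, hn1, hn2, hn3, hn4, hn5⟩ := exists_H0 hB2 hBB
  have hnL : (n : ℝ) ≤ 2 * LL N := by
    have h1 : (2 : ℝ) ^ n ≤ N := by exact_mod_cast hn5
    have h2 := Real.log_le_log (by positivity) h1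
    rw [Real.log_pow] at h2
    have h3 : (1 / 2 : ℝ) ≤ Real.log 2 := by
      have := Real.log_two_gt_d9
      linarith
    have h4 : (n : ℝ) * (1 / 2) ≤ n * Real.log 2 := by gcongr
    linarith
  obtain ⟨P, hPdef⟩ : ∃ P : ℕ → Finset ℕ, P = fun i => (PP N).filter (fun p => B * 2 ^ i ≤ p ∧ p < B * 2 ^ (i + 1)) :=
    ⟨_, rfl⟩
  have hPp : ∀ i ∈ range n, ∀ p ∈ P i, p.Prime ∧ B * 2 ^ i ≤ p ∧ p < 2 * (B * 2 ^ i) := by
    intro i _ p hp
    rw [hPdef] at hp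
    have hp' := mem_filter.1 hp
    refine ⟨(mem_PP.1 hp'.1).1, hp'.2.1, ?_⟩
    have : B * 2 ^ (i + 1) = 2 * (B * 2 ^ i) := by ring
    omega
  have hHB : ∀ i ∈ range n, B ≤ B * 2 ^ i := fun i _ => Nat.le_mul_of_pos_right _ (by positivity)
  have hHN : ∀ i ∈ range n, B * (B * 2 ^ i) ≤ N := fun i hi => hn4 i (mem_range.1 hi)
  have hm := pieces_minus hF hP hL8 hL3 hI (range n) (fun i => B * 2 ^ i) (fun _ => Icc 1 N) P hHB hHN hPp
  have hp := pieces_plus hF hP hL8 hL3 hI (range n) (fun i => B * 2 ^ i) (fun _ => Icc 1 N) P hHB hHN hPp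
  -- the large primes
  have hH0N : B * 2 ^ n ≤ N := by
    have h1 : 2 * (B * 2 ^ n) ≤ B * (B * 2 ^ n) := Nat.mul_le_mul_right _ hB2
    omega
  have hH01 : 1 ≤ B * 2 ^ n := Nat.mul_pos (by omega) (by positivity)
  have htop' := htop N hN1 θ D hF hκD hDN B (B * 2 ^ n) (by omega) hP.hBD hBε hH01 hn2 hH0N
  have hsplit : (PP N).filter (fun p => B ≤ p) = (PP N).filter (fun p => B ≤ p ∧ p < B * 2 ^ n) ∪
      (PP N).filter (fun p => B * 2 ^ n ≤ p) := by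
    ext p
    rw [mem_union, mem_filter, mem_filter, mem_filter]
    have : B ≤ B * 2 ^ n := Nat.le_mul_of_pos_right _ (by positivity)
    constructor
    · rintro ⟨ha, hb⟩
      rcases Nat.lt_or_ge p (B * 2 ^ n) with h | h
      · exact Or.inl ⟨ha, hb, h⟩
      · exact Or.inr ⟨ha, h⟩
    · rintro (⟨ha, hb, hc⟩ | ⟨ha, hb⟩)
      · exact ⟨ha, hb⟩
      · exact ⟨ha, by omega⟩
  have hdisj : Disjoint ((PP N).filter (fun p => B ≤ p ∧ p < B * 2 ^ n)) ((PP N).filter (fun p => B * 2 ^ n ≤ p)) := by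
    rw [disjoint_left]
    intro p h1 h2
    rw [mem_filter] at h1 h2
    omega
  have hLI : LI N B z 1 = (PP N).filter (fun p => B ≤ p) := LI1_eq hB2 hzB
  have hcards : ∑ p ∈ (PP N).filter (fun p => B ≤ p ∧ p < B * 2 ^ n), ((MG N (Icc 1 N) p).card : ℝ) ≤
      Pool.Agent.Helper11.RL.Qf N := by
    have h1 : ∑ p ∈ (PP N).filter (fun p => B ≤ p ∧ p < B * 2 ^ n), (MG N (Icc 1 N) p).card ≤
        ((Icc 1 N).filter Squarefree).card := by
      apply sum_MG_le (fun _ => Icc 1 N)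
      · intro p hp
        exact (mem_PP.1 (mem_filter.1 hp).1).1
      · intro p hp m hm
        have hp1 := mem_PP.1 (mem_filter.1 hp).1
        unfold MG at hm
        rw [mem_filter, mem_Icc] at hm
        rw [mem_filter, mem_Icc]
        refine ⟨⟨Nat.mul_pos hp1.1.pos (by omega), ?_⟩, ?_⟩
        · calc p * m ≤ p * (N / p) := Nat.mul_le_mul_left _ hm.1.2
            _ ≤ N := Nat.mul_div_le _ _
        · rw [Nat.squarefree_mul_iff]
          refine ⟨?_, hp1.1.prime.squarefree, hm.2.2.1⟩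
          rw [Nat.Prime.coprime_iff_not_dvd hp1.1]
          intro hdvd
          have := hm.2.2.2 p (Nat.mem_primeFactors.2 ⟨hp1.1, hdvd, by omega⟩)
          omega
    unfold Pool.Agent.Helper11.RL.Qf
    exact_mod_cast h1
  have hQ : (Pool.Agent.Helper11.RL.Qf N : ℝ) ≤ 6 / Real.pi ^ 2 * N + ε / 4 * N := by
    have h1 := (abs_le.1 (hsqf N)).2
    have h2 : C * Real.sqrt N ≤ ε / 4 * N := by
      have h3 : (4 * C / ε) ^ 2 ≤ N := Nat.ceil_le.1 hN5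
      have h4 : 4 * C / ε ≤ Real.sqrt N := Real.le_sqrt_of_sq_le h3
      rw [div_le_iff₀ hε] at h4
      have h5 : Real.sqrt N * Real.sqrt N = N := Real.mul_self_sqrt hN0.le
      have h6 : 0 ≤ Real.sqrt N := Real.sqrt_nonneg _
      nlinarith
    linarith
  have hnt : (n : ℝ) * ((N : ℝ) / LL N ^ 2) ≤ ε / 4 * N := by
    have h1 : (n : ℝ) * ((N : ℝ) / LL N ^ 2) ≤ 2 * LL N * ((N : ℝ) / LL N ^ 2) := by gcongr
    have h2 : 2 * LL N * ((N : ℝ) / LL N ^ 2) = 2 * N / LL N := by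
      field_simp
    have h3 : 2 * (N : ℝ) / LL N ≤ ε / 4 * N := by
      rw [div_le_iff₀ hL0]
      have h4 : 8 ≤ ε * LL N := by
        rw [div_le_iff₀ hε] at hlN2
        nlinarith
      nlinarith
    linarith
  -- the conclusion
  have hdet : ∀ T ⊆ PP N, (3 / Real.pi ^ 2 + ε) * N <
      (∑ l ∈ LI N B z 1, ‖XX N θ l T‖ ^ 2 + ‖∑ l ∈ LI N B z 1, XX N θ l T ^ 2‖) / 2 →
      (∃ j ∈ range n, (N : ℝ) / LL N ^ 2 <
        |∑ p ∈ P j, ‖XG N (Icc 1 N) θ p T‖ ^ 2 - ∑ p ∈ P j, ((MG N (Icc 1 N) p).card : ℝ)|) ∨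
      (∃ j ∈ range n, (N : ℝ) / LL N ^ 2 < ‖∑ p ∈ P j, XG N (Icc 1 N) θ p T ^ 2‖) := by
    intro T _ hlt
    by_contra hcon
    rw [not_or] at hcon
    obtain ⟨hc1, hc2⟩ := hcon
    push Not at hc1 hc2
    apply absurd hlt
    rw [not_lt]
    have hXX : ∀ p ∈ (PP N).filter (fun p => B ≤ p), XX N θ p T = XG N (Icc 1 N) θ p T := fun p hp =>
      XX_eq_XG (mem_PP.1 (mem_filter.1 hp).1).1 θ T
    have e1 : ∑ l ∈ LI N B z 1, ‖XX N θ l T‖ ^ 2 ≤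
        (Pool.Agent.Helper11.RL.Qf N : ℝ) + ε / 4 * N + ε / 4 * N := by
      rw [hLI, hsplit, sum_union hdisj]
      refine add_le_add ?_ (htop' T)
      have e2 : ∑ p ∈ (PP N).filter (fun p => B ≤ p ∧ p < B * 2 ^ n), ‖XX N θ p T‖ ^ 2 =
          ∑ p ∈ (PP N).filter (fun p => B ≤ p ∧ p < B * 2 ^ n), ‖XG N (Icc 1 N) θ p T‖ ^ 2 := by
        refine sum_congr rfl fun p hp => ?_
        rw [XX_eq_XG (mem_PP.1 (mem_filter.1 hp).1).1 θ T]
      have e3 : ∑ i ∈ range n, ∑ p ∈ P i, ‖XG N (Icc 1 N) θ p T‖ ^ 2 ≤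
          ∑ i ∈ range n, (∑ p ∈ P i, ((MG N (Icc 1 N) p).card : ℝ) + (N : ℝ) / LL N ^ 2) := by
        refine sum_le_sum fun i hi => ?_
        have := (abs_le.1 (hc1 i hi)).2
        linarith
      have e4 : ∑ i ∈ range n, ∑ p ∈ P i, ((MG N (Icc 1 N) p).card : ℝ) =
          ∑ p ∈ (PP N).filter (fun p => B ≤ p ∧ p < B * 2 ^ n), ((MG N (Icc 1 N) p).card : ℝ) := by
        rw [sum_dyadic, hPdef]
      have e5 : ∑ p ∈ (PP N).filter (fun p => B ≤ p ∧ p < B * 2 ^ n), ‖XG N (Icc 1 N) θ p T‖ ^ 2 =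
          ∑ i ∈ range n, ∑ p ∈ P i, ‖XG N (Icc 1 N) θ p T‖ ^ 2 := by
        rw [sum_dyadic, hPdef]
      rw [sum_add_distrib, sum_const, card_range, nsmul_eq_mul, e4] at e3
      rw [e2, e5]
      linarith
    have e6 : ‖∑ l ∈ LI N B z 1, XX N θ l T ^ 2‖ ≤ ε / 4 * N + ε / 4 * N := by
      rw [hLI, hsplit, sum_union hdisj]
      refine (norm_add_le _ _).trans (add_le_add ?_ ?_)
      · have e2 : ∑ p ∈ (PP N).filter (fun p => B ≤ p ∧ p < B * 2 ^ n), XX N θ p T ^ 2 =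
            ∑ i ∈ range n, ∑ p ∈ P i, XG N (Icc 1 N) θ p T ^ 2 := by
          rw [hPdef, ← sum_dyadic]
          refine sum_congr rfl fun p hp => ?_
          rw [XX_eq_XG (mem_PP.1 (mem_filter.1 hp).1).1 θ T]
        rw [e2]
        refine (norm_sum_le _ _).trans ?_
        have e3 : ∑ i ∈ range n, ‖∑ p ∈ P i, XG N (Icc 1 N) θ p T ^ 2‖ ≤ ∑ i ∈ range n, (N : ℝ) / LL N ^ 2 :=
          sum_le_sum fun i hi => hc2 i hi
        rw [sum_const, card_range, nsmul_eq_mul] at e3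
        linarith
      · refine (norm_sum_le _ _).trans ?_
        refine le_trans (le_of_eq ?_) (htop' T)
        exact sum_congr rfl fun p _ => norm_pow _ _
    have e7 : 6 / Real.pi ^ 2 * (N : ℝ) = 2 * (3 / Real.pi ^ 2 * N) := by ring
    rw [e7] at hQ
    nlinarith
  refine (pr_le_add hdet).trans ?_
  have hcard : ((range n).card : ℝ) = n := by rw [card_range]
  rw [hcard] at hm hp
  have hfin : (n : ℝ) * (1 / (6 * (B : ℝ) * LL N * D ^ 4)) ≤ 1 / D ^ 4 := by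
    have h1 : (n : ℝ) * (1 / (6 * (B : ℝ) * LL N * D ^ 4)) ≤ 2 * LL N * (1 / (6 * (B : ℝ) * LL N * D ^ 4)) := by
      gcongr
    refine h1.trans ?_
    have h2 : 2 * LL N * (1 / (6 * (B : ℝ) * LL N * D ^ 4)) = 1 / (3 * B) * (1 / D ^ 4) := by
      field_simp
      ring
    rw [h2]
    have h3 : 1 / (3 * (B : ℝ)) ≤ 1 := by
      rw [div_le_one (by positivity)]
      linarith
    calc 1 / (3 * (B : ℝ)) * (1 / D ^ 4) ≤ 1 * (1 / D ^ 4) := by gcongr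
      _ = _ := one_mul _
  calc _ ≤ 1 / D ^ 4 + 1 / D ^ 4 := add_le_add (hm.trans hfin) (hp.trans hfin)
    _ = 2 / D ^ 4 := by ring

end Pool.Agent.Helper51.EA
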